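import Mathlib

/-!
# Congruences between rational numbers modulo powers of `p`
-/

set_option autoImplicit false

open Finset

namespace Pool.Agent.MP5bfa61

variable (p : ℕ) [hp : Fact p.Prime]

/-- the ring of `p`-integral rational numbers -/
def ZP : Subring ℚ where
  carrier := {x | padicNorm p x ≤ 1}
  mul_mem' := by
    intro a b ha hb
    simp only [Set.mem_ofPred_eq] at *
    rw [padicNorm.mul]
    exact mul_le_one₀ ha (padicNorm.nonneg _) hb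
  one_mem' := by simp
  add_mem' := by
    intro a b ha hb
    simp only [Set.mem_ofPred_eq] at *
    exact padicNorm.nonarchimedean.trans (max_le ha hb)
  zero_mem' := by simp
  neg_mem' := by
    intro a ha
    simp only [Set.mem_ofPred_eq] at *
    rwa [padicNorm.neg]

lemma mem_ZP (x : ℚ) : x ∈ ZP p ↔ padicNorm p x ≤ 1 := Iff.rfl

/-- the multiples of `p^m` in `ZP p` -/
def Ip (m : ℕ) : AddSubgroup ℚ where
  carrier := {x | ∃ z ∈ ZP p, x = (p : ℚ) ^ m * z}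
  add_mem' := by
    rintro _ _ ⟨z, hz, rfl⟩ ⟨w, hw, rfl⟩
    exact ⟨z + w, add_mem hz hw, by ring⟩
  zero_mem' := ⟨0, zero_mem _, by ring⟩
  neg_mem' := by
    rintro _ ⟨z, hz, rfl⟩
    exact ⟨-z, neg_mem hz, by ring⟩

variable {p}

lemma mem_Ip {m : ℕ} {x : ℚ} : x ∈ Ip p m ↔ ∃ z ∈ ZP p, x = (p : ℚ) ^ m * z := Iff.rfl

lemma Ip_mul {m k : ℕ} {x y : ℚ} (hx : x ∈ Ip p m) (hy : y ∈ Ip p k) : x * y ∈ Ip p (m + k) := by
  obtain ⟨z, hz, rfl⟩ := hx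
  obtain ⟨w, hw, rfl⟩ := hy
  exact ⟨z * w, mul_mem hz hw, by rw [pow_add]; ring⟩

lemma Ip_mul_left {m : ℕ} {x y : ℚ} (hx : x ∈ ZP p) (hy : y ∈ Ip p m) : x * y ∈ Ip p m := by
  obtain ⟨w, hw, rfl⟩ := hy
  exact ⟨x * w, mul_mem hx hw, by ring⟩

lemma Ip_mul_right {m : ℕ} {x y : ℚ} (hx : x ∈ Ip p m) (hy : y ∈ ZP p) : x * y ∈ Ip p m := by
  rw [mul_comm]; exact Ip_mul_left hy hx

lemma Ip_pow {m : ℕ} {x : ℚ} (hx : x ∈ Ip p m) (k : ℕ) : x ^ k ∈ Ip p (m * k) := by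
  obtain ⟨z, hz, rfl⟩ := hx
  exact ⟨z ^ k, pow_mem hz k, by rw [mul_pow, pow_mul]⟩

lemma natCast_mem_ZP (n : ℕ) : (n : ℚ) ∈ ZP p := natCast_mem _ n

lemma intCast_mem_ZP (n : ℤ) : (n : ℚ) ∈ ZP p := intCast_mem _ n

lemma Ip_mono {m k : ℕ} (h : m ≤ k) {x : ℚ} (hx : x ∈ Ip p k) : x ∈ Ip p m := by
  obtain ⟨z, hz, rfl⟩ := hx
  obtain ⟨d, rfl⟩ := Nat.exists_eq_add_of_le h
  exact ⟨(p : ℚ) ^ d * z, mul_mem (pow_mem (natCast_mem_ZP p) d) hz, by rw [pow_add]; ring⟩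

lemma Ip_sub_ZP {m : ℕ} {x : ℚ} (hx : x ∈ Ip p m) : x ∈ ZP p := by
  obtain ⟨z, hz, rfl⟩ := Ip_mono (Nat.zero_le m) hx
  simpa using hz

lemma pow_mem_Ip (m : ℕ) : (p : ℚ) ^ m ∈ Ip p m := ⟨1, one_mem _, by ring⟩

lemma p_mul_mem {m : ℕ} {x : ℚ} (hx : x ∈ ZP p) : (p : ℚ) ^ m * x ∈ Ip p m := ⟨x, hx, rfl⟩

lemma inv_nat_mem {n : ℕ} (h : ¬ p ∣ n) : ((n : ℚ))⁻¹ ∈ ZP p := by
  rw [mem_ZP]
  have h1 : padicNorm p n = 1 := (padicNorm.nat_eq_one_iff n).2 h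
  have h2 : padicNorm p ((n : ℚ)⁻¹) = 1 := by
    have hn : (n : ℚ) ≠ 0 := by
      rintro h0
      have : n = 0 := by exact_mod_cast h0
      exact h (this ▸ dvd_zero p)
    have h3 : padicNorm p ((n : ℚ) * (n : ℚ)⁻¹) = 1 := by
      rw [mul_inv_cancel₀ hn]; simp
    rw [padicNorm.mul, h1, one_mul] at h3
    exact h3
  rw [h2]

lemma norm_lt_one {x : ℚ} (hx : x ∈ Ip p 1) : padicNorm p x < 1 := by
  obtain ⟨z, hz, rfl⟩ := hx
  rw [padicNorm.mul, pow_one, padicNorm.padicNorm_p_of_prime]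
  have h1 : ((p : ℚ))⁻¹ < 1 := by
    apply inv_lt_one_of_one_lt₀
    exact_mod_cast hp.out.one_lt
  have h2 : (0 : ℚ) < (p : ℚ)⁻¹ := by
    have := hp.out.pos
    positivity
  calc (p : ℚ)⁻¹ * padicNorm p z ≤ (p : ℚ)⁻¹ * 1 := by gcongr; exact hz
    _ < 1 := by linarith

lemma one_add_norm {x : ℚ} (hx : x ∈ Ip p 1) : padicNorm p (1 + x) = 1 := by
  have h1 := norm_lt_one hx
  have h2 : padicNorm p 1 ≠ padicNorm p x := by
    rw [padicNorm.one]; exact h1.ne'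
  rw [padicNorm.add_eq_max_of_ne h2, padicNorm.one]
  exact max_eq_left h1.le

lemma one_add_ne_zero {x : ℚ} (hx : x ∈ Ip p 1) : 1 + x ≠ 0 := by
  intro h
  have := one_add_norm hx
  rw [h] at this
  simp at this

lemma inv_one_add_mem {x : ℚ} (hx : x ∈ Ip p 1) : (1 + x)⁻¹ ∈ ZP p := by
  have h1 := one_add_norm hx
  have h2 := one_add_ne_zero hx
  rw [mem_ZP]
  have h3 : padicNorm p ((1 + x) * (1 + x)⁻¹) = 1 := by
    rw [mul_inv_cancel₀ h2]; simp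
  rw [padicNorm.mul, h1, one_mul] at h3
  rw [h3]

lemma inv_one_sub_mem {x : ℚ} (hx : x ∈ Ip p 1) : (1 - x)⁻¹ ∈ ZP p := by
  rw [sub_eq_add_neg]
  exact inv_one_add_mem (neg_mem hx)

lemma one_sub_ne_zero {x : ℚ} (hx : x ∈ Ip p 1) : 1 - x ≠ 0 := by
  rw [sub_eq_add_neg]
  exact one_add_ne_zero (neg_mem hx)

/-- congruence of products -/
lemma prod_congr_mod {ι : Type*} (s : Finset ι) (f g : ι → ℚ) (m : ℕ)
    (hf : ∀ i ∈ s, f i ∈ ZP p) (hg : ∀ i ∈ s, g i ∈ ZP p) (h : ∀ i ∈ s, f i - g i ∈ Ip p m) :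
    ∏ i ∈ s, f i - ∏ i ∈ s, g i ∈ Ip p m := by
  classical
  induction s using Finset.induction_on with
  | empty => simp [zero_mem]
  | insert a s ha ih =>
    rw [prod_insert ha, prod_insert ha]
    have h1 := ih (fun i hi => hf i (mem_insert_of_mem hi)) (fun i hi => hg i (mem_insert_of_mem hi))
      (fun i hi => h i (mem_insert_of_mem hi))
    have h2 : f a * ∏ i ∈ s, f i - g a * ∏ i ∈ s, g i =
        (f a - g a) * ∏ i ∈ s, f i + g a * (∏ i ∈ s, f i - ∏ i ∈ s, g i) := by ring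
    rw [h2]
    exact add_mem (Ip_mul_right (h a (mem_insert_self _ _))
      (prod_mem fun i hi => hf i (mem_insert_of_mem hi)))
      (Ip_mul_left (hg a (mem_insert_self _ _)) h1)

lemma prod_one_mod {ι : Type*} (s : Finset ι) (f : ι → ℚ) (m : ℕ)
    (h : ∀ i ∈ s, f i - 1 ∈ Ip p m) : ∏ i ∈ s, f i - 1 ∈ Ip p m := by
  have h1 := prod_congr_mod s f (fun _ => 1) m (fun i hi => by
    have := add_mem (Ip_sub_ZP (h i hi)) (one_mem (ZP p))
    simpa using this) (fun _ _ => one_mem _) h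
  simpa using h1

/-- expansion of a product to first order -/
lemma prod_first_order {ι : Type*} (s : Finset ι) (u : ι → ℚ) (m : ℕ)
    (h : ∀ i ∈ s, u i ∈ Ip p m) : ∏ i ∈ s, (1 + u i) - (1 + ∑ i ∈ s, u i) ∈ Ip p (m + m) := by
  classical
  induction s using Finset.induction_on with
  | empty => simp [zero_mem]
  | insert a s ha ih =>
    rw [prod_insert ha, sum_insert ha]
    have h0 := fun i hi => h i (mem_insert_of_mem hi)
    have h1 := ih h0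
    have h2 : (1 + u a) * ∏ i ∈ s, (1 + u i) - (1 + (u a + ∑ i ∈ s, u i)) =
        (∏ i ∈ s, (1 + u i) - (1 + ∑ i ∈ s, u i)) + u a * (∏ i ∈ s, (1 + u i) - 1) := by ring
    rw [h2]
    refine add_mem h1 (Ip_mul (h a (mem_insert_self _ _)) (prod_one_mod s _ m fun i hi => ?_))
    simpa using h0 i hi

lemma norm_le {m : ℕ} {x : ℚ} (hx : x ∈ Ip p m) : padicNorm p x ≤ (p : ℚ) ^ (-m : ℤ) := by
  obtain ⟨z, hz, rfl⟩ := hx
  have h1 : padicNorm p ((p : ℚ) ^ m) = (p : ℚ) ^ (-m : ℤ) := by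
    induction m with
    | zero => simp
    | succ k ih =>
      have hp0 : (p : ℚ) ≠ 0 := by exact_mod_cast hp.out.ne_zero
      rw [pow_succ, padicNorm.mul, ih, padicNorm.padicNorm_p_of_prime]
      push_cast
      rw [neg_add, zpow_add₀ hp0, zpow_neg_one]
  rw [padicNorm.mul, h1]
  have h2 : (0 : ℚ) ≤ (p : ℚ) ^ (-m : ℤ) := by positivity
  calc (p : ℚ) ^ (-m : ℤ) * padicNorm p z ≤ (p : ℚ) ^ (-m : ℤ) * 1 := by gcongr; exact hz
    _ = _ := mul_one _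

lemma num_dvd {m : ℕ} {x : ℚ} (hx : x ∈ Ip p m) : (p : ℤ) ^ m ∣ x.num := by
  have h1 := norm_le hx
  have h2 : padicNorm p (x.num : ℚ) ≤ (p : ℚ) ^ (-m : ℤ) := by
    rw [← Rat.mul_den_eq_num, padicNorm.mul]
    have h3 : padicNorm p (x.den : ℚ) ≤ 1 := padicNorm.of_nat _
    calc padicNorm p x * padicNorm p (x.den : ℚ) ≤ padicNorm p x * 1 := by
          gcongr
          exact padicNorm.nonneg _
      _ ≤ _ := by rw [mul_one]; exact h1
  have h4 := padicNorm.dvd_iff_norm_le.2 h2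
  exact_mod_cast h4

end Pool.Agent.MP5bfa61
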