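import Mathlib

/-!
# An exact formula for the truncated sum
-/

set_option autoImplicit false

open Finset

namespace Pool.Agent.MP5bfa61

/-- `b_l = C(2l,l) / 4^l` -/
def bb (l : ℕ) : ℚ := (Nat.choose (2 * l) l : ℚ) / 4 ^ l

lemma bb_zero : bb 0 = 1 := by simp [bb]

lemma bb_succ (l : ℕ) : bb (l + 1) = bb l * (2 * l + 1) / (2 * (l + 1)) := by
  have h := Nat.succ_mul_centralBinom_succ l
  rw [Nat.centralBinom, Nat.centralBinom] at h
  have h' : ((l : ℚ) + 1) * (Nat.choose (2 * (l + 1)) (l + 1) : ℚ) =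
      2 * (2 * l + 1) * (Nat.choose (2 * l) l : ℚ) := by exact_mod_cast h
  rw [bb, bb, pow_succ]
  have hl : ((l : ℚ) + 1) ≠ 0 := by positivity
  have h4 : (4 : ℚ) ^ l ≠ 0 := by positivity
  field_simp
  linear_combination 2 * h'

/-- relation between `C(N+1,k)` and `C(N,k)` -/
lemma choose_rel (N k : ℕ) :
    ((N : ℚ) + 1 - k) * (Nat.choose (N + 1) k : ℚ) = (N + 1) * (Nat.choose N k : ℚ) := by
  have h := Nat.choose_mul_succ_eq N k
  rcases le_or_gt k (N + 1) with hk | hk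
  · have h' : (Nat.choose N k : ℚ) * (N + 1) = (Nat.choose (N + 1) k : ℚ) * ((N + 1 - k : ℕ) : ℚ) := by
      exact_mod_cast h
    rw [Nat.cast_sub hk] at h'
    push_cast at h'
    linear_combination -h'
  · rw [Nat.choose_eq_zero_of_lt hk, Nat.choose_eq_zero_of_lt (by omega)]
    simp

/-- relation between `C(N,k+1)` and `C(N,k)` -/
lemma choose_rel' (N k : ℕ) :
    ((k : ℚ) + 1) * (Nat.choose N (k + 1) : ℚ) = (N - k) * (Nat.choose N k : ℚ) := by
  have h := Nat.choose_succ_right_eq N k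
  rcases le_or_gt k N with hk | hk
  · have h' : (Nat.choose N (k + 1) : ℚ) * (k + 1) = (Nat.choose N k : ℚ) * ((N - k : ℕ) : ℚ) := by
      exact_mod_cast h
    rw [Nat.cast_sub hk] at h'
    linear_combination h'
  · rw [Nat.choose_eq_zero_of_lt hk, Nat.choose_eq_zero_of_lt (by omega)]
    simp

lemma choose_rel2 (N l : ℕ) :
    (2 * (l : ℚ) + 1) * (2 * l + 2) * (Nat.choose N (2 * (l + 1)) : ℚ) =
      (N - 2 * l) * (N - 2 * l - 1) * (Nat.choose N (2 * l) : ℚ) := by
  have h1 := choose_rel' N (2 * l)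
  have h2 := choose_rel' N (2 * l + 1)
  push_cast at h1 h2
  have h3 : 2 * (l + 1) = 2 * l + 1 + 1 := by ring
  rw [h3]
  linear_combination (2 * (l : ℚ) + 1) * h2 + ((N : ℚ) - (2 * l + 1)) * h1

/-- `τ_l = C(N,2l) b_l` -/
def tau (N l : ℕ) : ℚ := (Nat.choose N (2 * l) : ℚ) * bb l

lemma tau_succ (N l : ℕ) :
    4 * ((l : ℚ) + 1) ^ 2 * tau N (l + 1) = (N - 2 * l) * (N - 2 * l - 1) * tau N l := by
  have h1 := choose_rel2 N l
  rw [tau, tau, bb_succ]
  have hl : ((l : ℚ) + 1) ≠ 0 := by positivity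
  have h2 : 4 * ((l : ℚ) + 1) ^ 2 *
      ((Nat.choose N (2 * (l + 1)) : ℚ) * (bb l * (2 * l + 1) / (2 * (l + 1)))) =
      bb l * ((2 * (l : ℚ) + 1) * (2 * l + 2) * (Nat.choose N (2 * (l + 1)) : ℚ)) := by
    field_simp
    ring
  rw [h2, h1]
  ring

lemma tau_eq_zero (N l : ℕ) (h : N < 2 * l) : tau N l = 0 := by
  rw [tau, Nat.choose_eq_zero_of_lt h]; simp

/-- `∑_l C(N,2l) C(2l,l)/4^l = C(2N,N)/2^N`. -/
lemma sum_tau (N : ℕ) : ∑ l ∈ range (N + 1), tau N l = (Nat.choose (2 * N) N : ℚ) / 2 ^ N := by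
  induction N with
  | zero => simp [tau, bb]
  | succ N ih =>
    let G : ℕ → ℚ := fun l => -(4 * (l : ℚ) ^ 2 / (N + 1)) * tau (N + 1) l
    have hN : ((N : ℚ) + 1) ≠ 0 := by positivity
    have key : ∀ l, ((N : ℚ) + 1) * tau (N + 1) l - (2 * N + 1) * tau N l = G (l + 1) - G l := by
      intro l
      have h1 := choose_rel N (2 * l)
      push_cast at h1
      have h2 := tau_succ (N + 1) l
      have h3 : G (l + 1) = -((N + 1 - 2 * l) * (N + 1 - 2 * l - 1) * tau (N + 1) l) / (N + 1) := by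
        simp only [G]
        push_cast at h2 ⊢
        rw [← h2]
        field_simp
      have h4 : ((N : ℚ) + 1 - 2 * l) * tau (N + 1) l = (N + 1) * tau N l := by
        rw [tau, tau]
        linear_combination (bb l) * h1
      rw [h3]
      simp only [G]
      field_simp
      linear_combination ((N : ℚ) + 1 + 2 * l + (N - 2 * l)) * h4
    have hsum : ∑ l ∈ range (N + 2), (((N : ℚ) + 1) * tau (N + 1) l - (2 * N + 1) * tau N l) = 0 := by
      rw [sum_congr rfl fun l _ => key l, sum_range_sub]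
      simp only [G]
      rw [tau_eq_zero (N + 1) (N + 2) (by omega)]
      simp
    rw [sum_sub_distrib, ← mul_sum, ← mul_sum, sum_range_succ (fun l => tau N l) (N + 1),
      tau_eq_zero N (N + 1) (by omega), add_zero, ih] at hsum
    have h4 := Nat.succ_mul_centralBinom_succ N
    rw [Nat.centralBinom, Nat.centralBinom] at h4
    have h4' : ((N : ℚ) + 1) * (Nat.choose (2 * (N + 1)) (N + 1) : ℚ) =
        2 * (2 * N + 1) * (Nat.choose (2 * N) N : ℚ) := by exact_mod_cast h4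
    have h5 : ((N : ℚ) + 1) * ∑ l ∈ range (N + 2), tau (N + 1) l =
        (N + 1) * ((Nat.choose (2 * (N + 1)) (N + 1) : ℚ) / 2 ^ (N + 1)) := by
      rw [sub_eq_zero] at hsum
      rw [hsum, pow_succ, mul_div_assoc', mul_div_assoc', h4']
      field_simp
    exact mul_left_cancel₀ hN h5

/-- `φ(N) = ∑_l C(N,2l) b_l / (N+1+l)` -/
def phi (N : ℕ) : ℚ := ∑ l ∈ range (N + 1), tau N l / (N + 1 + l)

lemma phi_rec (M : ℕ) :
    3 / 2 * (3 * ((M : ℚ) + 1) + 1) * (3 * (M + 1) + 2) * phi (M + 1) - 2 * (M + 1) ^ 2 * phi M =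
      (10 * (M + 1) + 3) * ((Nat.choose (2 * (M + 1)) (M + 1) : ℚ) / 2 ^ (M + 1)) := by
  let G : ℕ → ℚ := fun l => 6 * (l : ℚ) ^ 2 / (M + 1 + l) * tau (M + 1) l
  have key : ∀ l, 3 / 2 * (3 * ((M : ℚ) + 1) + 1) * (3 * (M + 1) + 2) *
      (tau (M + 1) l / (M + 1 + 1 + l)) - 2 * (M + 1) ^ 2 * (tau M l / (M + 1 + l)) -
      (10 * (M + 1) + 3) * tau (M + 1) l = G (l + 1) - G l := by
    intro l
    have h1 := choose_rel M (2 * l)
    push_cast at h1
    have h4 : ((M : ℚ) + 1) * tau M l = (M + 1 - 2 * l) * tau (M + 1) l := by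
      rw [tau, tau]
      linear_combination -(bb l) * h1
    have h2 := tau_succ (M + 1) l
    push_cast at h2
    have hd1 : ((M : ℚ) + 1 + l) ≠ 0 := by positivity
    have hd2 : ((M : ℚ) + 1 + 1 + l) ≠ 0 := by positivity
    have h3 : G (l + 1) = 6 / 4 * ((M + 1 - 2 * l) * (M + 1 - 2 * l - 1) * tau (M + 1) l) /
        (M + 1 + 1 + l) := by
      simp only [G]
      push_cast
      rw [← h2]
      have : ((M : ℚ) + 1 + (l + 1)) = M + 1 + 1 + l := by ring
      rw [this]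
      field_simp
    have h5 : 2 * ((M : ℚ) + 1) ^ 2 * (tau M l / (M + 1 + l)) =
        2 * (M + 1) * ((M + 1 - 2 * l) * tau (M + 1) l) / (M + 1 + l) := by
      rw [← h4]
      ring
    rw [h3, h5]
    simp only [G]
    field_simp
    ring
  have hsum := sum_range_sub G (M + 2)
  rw [← sum_congr rfl fun l _ => key l, sum_sub_distrib, sum_sub_distrib, ← mul_sum, ← mul_sum,
    ← mul_sum, sum_range_succ (fun l => tau M l / ((M : ℚ) + 1 + l)) (M + 1)] at hsum
  have hG : G (M + 2) - G 0 = 0 := by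
    simp only [G]
    rw [tau_eq_zero (M + 1) (M + 2) (by omega)]
    simp
  rw [hG, tau_eq_zero M (M + 1) (by omega), zero_div, add_zero, sum_tau (M + 1)] at hsum
  rw [phi, phi]
  push_cast
  linear_combination hsum

/-- `α(N) = C(3N,N) C(2N,N) / 4^N` -/
def al (N : ℕ) : ℚ := (Nat.choose (3 * N) N : ℚ) * (Nat.choose (2 * N) N : ℚ) / 4 ^ N

lemma al_eq (N : ℕ) : al N = (Nat.factorial (3 * N) : ℚ) / ((Nat.factorial N : ℚ) ^ 3 * 4 ^ N) := by
  have h1 := Nat.choose_mul_factorial_mul_factorial (n := 3 * N) (k := N) (by omega)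
  have h2 := Nat.choose_mul_factorial_mul_factorial (n := 2 * N) (k := N) (by omega)
  have e1 : 3 * N - N = 2 * N := by omega
  have e2 : 2 * N - N = N := by omega
  rw [e1] at h1
  rw [e2] at h2
  have h3 : (Nat.factorial (3 * N) : ℚ) =
      (Nat.choose (3 * N) N : ℚ) * (Nat.choose (2 * N) N : ℚ) * (Nat.factorial N : ℚ) ^ 3 := by
    have h1' : (Nat.choose (3 * N) N : ℚ) * Nat.factorial N * Nat.factorial (2 * N) =
      Nat.factorial (3 * N) := by exact_mod_cast h1
    have h2' : (Nat.choose (2 * N) N : ℚ) * Nat.factorial N * Nat.factorial N =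
      Nat.factorial (2 * N) := by exact_mod_cast h2
    rw [← h1', ← h2']
    ring
  rw [h3, al]
  have : (Nat.factorial N : ℚ) ≠ 0 := by positivity
  field_simp

lemma al_succ (N : ℕ) :
    4 * ((N : ℚ) + 1) ^ 2 * al (N + 1) = 3 * (3 * N + 1) * (3 * N + 2) * al N := by
  rw [al_eq, al_eq]
  have h1 : 3 * (N + 1) = 3 * N + 1 + 1 + 1 := by ring
  rw [h1, Nat.factorial_succ, Nat.factorial_succ, Nat.factorial_succ, Nat.factorial_succ, pow_succ]
  push_cast
  have : (Nat.factorial N : ℚ) ≠ 0 := by positivity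
  have hN : ((N : ℚ) + 1) ≠ 0 := by positivity
  field_simp
  ring

/-- the truncated sum -/
def SS (N : ℕ) : ℚ :=
  ∑ k ∈ range N, (10 * (k : ℚ) + 3) / 8 ^ k * (Nat.choose (2 * k) k : ℚ) ^ 2 *
    (Nat.choose (3 * k) k : ℚ)

theorem SS_eq (N : ℕ) : SS (N + 1) = 2 * ((N : ℚ) + 1) ^ 2 * al (N + 1) * phi N := by
  induction N with
  | zero =>
    norm_num [SS, al, phi, tau, bb, Nat.choose]
  | succ N ih =>
    rw [SS, sum_range_succ, ← SS, ih]
    have h1 := phi_rec N
    have h2 := al_succ (N + 1)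
    have h3 : (10 * ((N + 1 : ℕ) : ℚ) + 3) / 8 ^ (N + 1) *
        (Nat.choose (2 * (N + 1)) (N + 1) : ℚ) ^ 2 * (Nat.choose (3 * (N + 1)) (N + 1) : ℚ) =
        (10 * ((N : ℚ) + 1) + 3) * al (N + 1) *
          ((Nat.choose (2 * (N + 1)) (N + 1) : ℚ) / 2 ^ (N + 1)) := by
      rw [al]
      push_cast
      have h8 : (8 : ℚ) ^ (N + 1) = 4 ^ (N + 1) * 2 ^ (N + 1) := by
        rw [← mul_pow]; norm_num
      rw [h8]
      field_simp
    rw [h3]
    push_cast at h2 ⊢
    have h4 : 2 * ((N : ℚ) + 1 + 1) ^ 2 * al (N + 1 + 1) =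
        3 / 2 * (3 * ((N : ℚ) + 1) + 1) * (3 * (N + 1) + 2) * al (N + 1) := by
      linear_combination (1 / 2) * h2
    rw [h4]
    linear_combination -(al (N + 1)) * h1

/-- rising factorial -/
def P (x : ℚ) (l : ℕ) : ℚ := ∏ i ∈ range l, (x + i)

lemma P_zero (x : ℚ) : P x 0 = 1 := by simp [P]
lemma P_succ (x : ℚ) (l : ℕ) : P x (l + 1) = P x l * (x + l) := by rw [P, P, prod_range_succ]
lemma P_succ' (x : ℚ) (l : ℕ) : P x (l + 1) = x * P (x + 1) l := by
  rw [P, P, prod_range_succ']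
  rw [mul_comm]
  congr 1
  · simp
  · refine prod_congr rfl fun i _ => ?_
    push_cast
    ring

/-- summand of the Vandermonde sum -/
def cv (b : ℚ) (m l : ℕ) : ℚ := (Nat.choose m l : ℚ) * (-1) ^ l * P b l / (Nat.factorial l : ℚ)

lemma cv_succ (b : ℚ) (m l : ℕ) :
    ((l : ℚ) + 1) ^ 2 * cv b m (l + 1) = -((m - l) * (b + l)) * cv b m l := by
  have h := choose_rel' m l
  rw [cv, cv, P_succ, pow_succ (-1 : ℚ), Nat.factorial_succ]
  push_cast
  have h1 : (Nat.factorial l : ℚ) ≠ 0 := by positivity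
  have h2 : ((l : ℚ) + 1) ≠ 0 := by positivity
  have h3 : ((l : ℚ) + 1) ^ 2 * ((Nat.choose m (l + 1) : ℚ) * ((-1) ^ l * -1) * (P b l * (b + l)) /
      ((l + 1) * (Nat.factorial l : ℚ))) =
      -(((l : ℚ) + 1) * (Nat.choose m (l + 1) : ℚ)) * ((-1) ^ l * (P b l * (b + l)) /
      (Nat.factorial l : ℚ)) := by
    field_simp
  rw [h3, h]
  field_simp

lemma cv_rel (b : ℚ) (m l : ℕ) :
    ((m : ℚ) + 1 - l) * cv b (m + 1) l = (m + 1) * cv b m l := by
  have h := choose_rel m l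
  rw [cv, cv]
  have h1 : (Nat.factorial l : ℚ) ≠ 0 := by positivity
  field_simp
  linear_combination (P b l) * h

lemma cv_eq_zero (b : ℚ) (m l : ℕ) (h : m < l) : cv b m l = 0 := by
  rw [cv, Nat.choose_eq_zero_of_lt h]; simp

lemma sum_cv (b : ℚ) (m : ℕ) :
    ∑ l ∈ range (m + 1), cv b m l = P (1 - b) m / (Nat.factorial m : ℚ) := by
  induction m with
  | zero => simp [cv, P]
  | succ m ih =>
    let G : ℕ → ℚ := fun l => -((l : ℚ) ^ 2 / (m + 1)) * cv b (m + 1) l
    have hm : ((m : ℚ) + 1) ≠ 0 := by positivity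
    have key : ∀ l, ((m : ℚ) + 1) * cv b (m + 1) l - (m + 1 - b) * cv b m l = G (l + 1) - G l := by
      intro l
      have h1 := cv_rel b m l
      have h2 := cv_succ b (m + 1) l
      have h3 : G (l + 1) = (m + 1 - l) * (b + l) * cv b (m + 1) l / (m + 1) := by
        simp only [G]
        push_cast at h2 ⊢
        have : -(((l : ℚ) + 1) ^ 2 / (m + 1)) * cv b (m + 1) (l + 1) =
            -(((l : ℚ) + 1) ^ 2 * cv b (m + 1) (l + 1)) / (m + 1) := by ring
        rw [this, h2]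
        ring
      rw [h3]
      simp only [G]
      field_simp
      linear_combination ((m : ℚ) + 1 - b) * h1
    have hsum := sum_range_sub G (m + 2)
    rw [← sum_congr rfl fun l _ => key l, sum_sub_distrib, ← mul_sum, ← mul_sum,
      sum_range_succ (fun l => cv b m l) (m + 1), cv_eq_zero b m (m + 1) (by omega), add_zero,
      ih] at hsum
    have hG : G (m + 2) - G 0 = 0 := by
      simp only [G]
      rw [cv_eq_zero b (m + 1) (m + 2) (by omega)]
      simp
    rw [hG] at hsum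
    have h5 : ((m : ℚ) + 1) * ∑ l ∈ range (m + 1 + 1), cv b (m + 1) l =
        (m + 1) * (P (1 - b) (m + 1) / (Nat.factorial (m + 1) : ℚ)) := by
      rw [sub_eq_zero] at hsum
      rw [hsum, P_succ, Nat.factorial_succ]
      push_cast
      have h1 : (Nat.factorial m : ℚ) ≠ 0 := by positivity
      field_simp
      ring
    exact mul_left_cancel₀ hm h5

/-- the partial fraction sum -/
def EE (x b : ℚ) (m : ℕ) : ℚ := ∑ l ∈ range (m + 1), cv b m l * (x / (x + l))

lemma EE_eq (x b : ℚ) (hx : 0 < x) (m : ℕ) :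
    P (x + 1) m / (Nat.factorial m : ℚ) * EE x b m =
      ∑ l ∈ range (m + 1), P x l * P (1 - b) l / (Nat.factorial l : ℚ) ^ 2 := by
  induction m with
  | zero =>
    simp [EE, cv, P]
    exact hx.ne'
  | succ m ih =>
    rw [sum_range_succ, ← ih]
    have hxl : ∀ l : ℕ, x + l ≠ 0 := fun l => by positivity
    have h1 : EE x b m = ∑ l ∈ range (m + 1 + 1), cv b m l * (x / (x + l)) := by
      rw [sum_range_succ, cv_eq_zero b m (m + 1) (by omega), zero_mul, add_zero, EE]
    have hm : ((m : ℚ) + 1) ≠ 0 := by positivity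
    have hf : (Nat.factorial m : ℚ) ≠ 0 := by positivity
    have h2 : P (x + 1) (m + 1) / (Nat.factorial (m + 1) : ℚ) * EE x b (m + 1) -
        P (x + 1) m / (Nat.factorial m : ℚ) * EE x b m =
        P x (m + 1) / (Nat.factorial (m + 1) : ℚ) * ∑ l ∈ range (m + 1 + 1), cv b (m + 1) l := by
      rw [h1, EE, mul_sum, mul_sum, mul_sum, ← sum_sub_distrib]
      refine sum_congr rfl fun l _ => ?_
      have h3 := cv_rel b m l
      have h4 : cv b m l = ((m : ℚ) + 1 - l) * cv b (m + 1) l / (m + 1) := by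
        rw [h3]; field_simp
      rw [h4, P_succ (x + 1), P_succ' x, Nat.factorial_succ]
      push_cast
      have := hxl l
      field_simp
      ring
    rw [sum_cv] at h2
    rw [pow_two]
    linear_combination h2

lemma tau_eq_cv (n l : ℕ) : tau (2 * n) l = cv (1 / 2 - n) n l := by
  induction l with
  | zero => simp [tau, bb, cv, P]
  | succ l ih =>
    have h1 := tau_succ (2 * n) l
    have h2 := cv_succ (1 / 2 - n) n l
    have hl : 4 * ((l : ℚ) + 1) ^ 2 ≠ 0 := by positivity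
    apply mul_left_cancel₀ hl
    rw [h1, ih, mul_assoc 4, h2]
    push_cast
    ring

lemma phi_even (n : ℕ) :
    (2 * (n : ℚ) + 1) * phi (2 * n) = EE (2 * n + 1) (1 / 2 - n) n := by
  rw [phi, EE, mul_sum]
  have h1 : range (2 * n + 1) = range ((n + 1) + n) := by congr 1; ring
  rw [h1, sum_range_add]
  have h2 : ∑ x ∈ range n, (2 * (n : ℚ) + 1) *
      (tau (2 * n) (n + 1 + x) / (((2 * n : ℕ) : ℚ) + 1 + ((n + 1 + x : ℕ) : ℚ))) = 0 := by
    refine sum_eq_zero fun x _ => ?_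
    rw [tau_eq_zero (2 * n) (n + 1 + x) (by omega)]
    simp
  rw [h2, add_zero]
  refine sum_congr rfl fun l _ => ?_
  rw [tau_eq_cv]
  push_cast
  ring

/-- The exact formula for `N = 2n+1`. -/
theorem SS_odd (n : ℕ) :
    P (2 * n + 1 + 1) n / (Nat.factorial n : ℚ) * SS (2 * n + 1) =
      2 * (2 * n + 1) * al (2 * n + 1) *
      ∑ l ∈ range (n + 1), P (2 * n + 1) l * P ((2 * n + 1) / 2) l / (Nat.factorial l : ℚ) ^ 2 := by
  have h1 := SS_eq (2 * n)
  have h2 := EE_eq (2 * n + 1) (1 / 2 - n) (by positivity) n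
  have h3 : (1 : ℚ) - (1 / 2 - n) = (2 * n + 1) / 2 := by ring
  rw [h3] at h2
  rw [← h2, ← phi_even, h1]
  push_cast
  ring

end Pool.Agent.MP5bfa61
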