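import Mathlib
import Pool.Agent.Lib.MP_5bfa61_nt.Basic

/-!
# Power sums and Bernoulli numbers modulo `p` and `p^2`
-/

set_option autoImplicit false

open Finset

namespace Pool.Agent.MP5bfa61

variable {p : ℕ} [hp : Fact p.Prime]

lemma int_mem {m : ℕ} {z : ℤ} (h : (p : ℤ) ^ m ∣ z) : (z : ℚ) ∈ Ip p m := by
  obtain ⟨w, rfl⟩ := h
  exact ⟨w, intCast_mem_ZP w, by push_cast; ring⟩

lemma mul_cancel_mem {m : ℕ} {x : ℚ} (h : (p : ℚ) * x ∈ Ip p (m + 1)) : x ∈ Ip p m := by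
  obtain ⟨z, hz, hx⟩ := h
  have hp0 : (p : ℚ) ≠ 0 := by exact_mod_cast hp.out.ne_zero
  refine ⟨z, hz, ?_⟩
  apply mul_left_cancel₀ hp0
  rw [hx, pow_succ]
  ring

omit hp in
lemma not_dvd_of_lt {l : ℕ} (h1 : 1 ≤ l) (h2 : l < p) : ¬ p ∣ l := fun h =>
  absurd (Nat.le_of_dvd h1 h) (by omega)

lemma inv_mem' {l : ℕ} (h1 : 1 ≤ l) (h2 : l < p) : ((l : ℚ))⁻¹ ∈ ZP p :=
  inv_nat_mem (not_dvd_of_lt h1 h2)

/-- Fermat's little theorem -/
lemma fermat {l : ℕ} (h1 : 1 ≤ l) (h2 : l < p) : (l : ℚ) ^ (p - 1) - 1 ∈ Ip p 1 := by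
  have h3 : IsCoprime (l : ℤ) (p : ℤ) := by
    rw [Nat.isCoprime_iff_coprime]
    exact ((Nat.Prime.coprime_iff_not_dvd hp.out).2 (not_dvd_of_lt h1 h2)).symm
  have h4 := (Int.ModEq.pow_card_sub_one_eq_one hp.out h3).symm.dvd
  have h5 := int_mem (p := p) (m := 1) (z := (l : ℤ) ^ (p - 1) - 1) (by rw [pow_one]; exact h4)
  push_cast at h5
  exact h5

lemma pow_inv_mem {l k : ℕ} (h1 : 1 ≤ l) (h2 : l < p) (hk : k ≤ p - 1) :
    (l : ℚ) ^ (p - 1 - k) - ((l : ℚ)⁻¹) ^ k ∈ Ip p 1 := by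
  have h3 := fermat h1 h2
  have hl : (l : ℚ) ≠ 0 := by positivity
  have e : (l : ℚ) ^ (p - 1 - k) - ((l : ℚ)⁻¹) ^ k = ((l : ℚ)⁻¹) ^ k * ((l : ℚ) ^ (p - 1) - 1) := by
    obtain ⟨d, hd⟩ := Nat.exists_eq_add_of_le hk
    rw [hd, Nat.add_sub_cancel_left, pow_add, inv_pow]
    field_simp
  rw [e]
  exact Ip_mul_left (pow_mem (inv_mem' h1 h2) k) h3

/-- power sums modulo `p` -/
lemma sum_pow_mem (e : ℕ) :
    (∑ v ∈ Icc 1 (p - 1), (v : ℚ) ^ e) + (if (p - 1) ∣ e then (1 : ℚ) else 0) ∈ Ip p 1 := by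
  have h0 : Icc 1 (p - 1) = Ico 1 p := by
    ext x
    have := hp.out.pos
    simp only [mem_Icc, mem_Ico]
    omega
  have key : (∑ v ∈ Ico 1 p, (v : ZMod p) ^ e) + (if (p - 1) ∣ e then (1 : ZMod p) else 0) = 0 := by
    have hbij : (∑ v ∈ Ico 1 p, (v : ZMod p) ^ e) = ∑ u : (ZMod p)ˣ, (u : ZMod p) ^ e :=
      Finset.sum_bij'
        (fun v hv ↦ Units.mk0 (v : ZMod p) (mt (ZMod.natCast_eq_zero_iff v p).mp (by
          grind [Nat.not_dvd_of_pos_of_lt])))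
        (fun u _ ↦ (u : ZMod p).val)
        (fun _ _ ↦ Finset.mem_univ _)
        (fun u _ ↦ by grind [u.ne_zero, ZMod.val_ne_zero, ZMod.val_lt])
        (fun v hv ↦ by simp [ZMod.val_cast_of_lt (Finset.mem_Ico.mp hv).2])
        (fun u _ ↦ Units.ext (ZMod.natCast_zmod_val _))
        (fun _ _ ↦ rfl)
    rw [hbij, FiniteField.sum_pow_units, ZMod.card]
    grind
  have hcast : (↑((∑ v ∈ Ico 1 p, (v : ℤ) ^ e) +
      (if (p - 1) ∣ e then 1 else 0)) : ZMod p) = 0 := by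
    push_cast
    exact_mod_cast key
  have hdvd := (ZMod.intCast_zmod_eq_zero_iff_dvd _ _).mp hcast
  have h1 := int_mem (p := p) (m := 1)
    (z := (∑ v ∈ Ico 1 p, (v : ℤ) ^ e) + (if (p - 1) ∣ e then 1 else 0))
    (by rw [pow_one]; exact hdvd)
  rw [h0]
  push_cast at h1
  exact h1

/-- `p`-integrality of Bernoulli numbers of small index -/
lemma bernoulli_mem (i : ℕ) (hi : i + 1 < p) : bernoulli i ∈ ZP p := by
  induction i using Nat.strong_induction_on with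
  | _ i ih =>
    have h1 := sum_bernoulli (i + 1)
    rw [sum_range_succ, Nat.choose_succ_self_right] at h1
    have h2 : (∑ k ∈ range i, ((i + 1).choose k : ℚ) * bernoulli k) ∈ ZP p := by
      refine sum_mem fun k hk => ?_
      have hk' := mem_range.1 hk
      exact mul_mem (natCast_mem_ZP _) (ih k hk' (by omega))
    have h3 : bernoulli i = ((i + 1 : ℕ) : ℚ)⁻¹ * ((if i + 1 = 1 then (1 : ℚ) else 0) -
        ∑ k ∈ range i, ((i + 1).choose k : ℚ) * bernoulli k) := by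
      rw [← h1]
      have : ((i + 1 : ℕ) : ℚ) ≠ 0 := by positivity
      field_simp
      ring
    rw [h3]
    refine mul_mem (inv_mem' (by omega) hi) (sub_mem ?_ h2)
    split_ifs
    · exact one_mem _
    · exact zero_mem _

/-- `∑_{j<p} j^(p-3) ≡ p B_{p-3} mod p^2` -/
lemma sum_pow_bernoulli (h5 : 5 ≤ p) :
    (∑ j ∈ range p, (j : ℚ) ^ (p - 3)) - p * bernoulli (p - 3) ∈ Ip p 2 := by
  rw [sum_range_pow, sum_range_succ]
  have hp3 : ((p - 3 : ℕ) : ℚ) + 1 = ((p - 2 : ℕ) : ℚ) := by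
    have : p - 2 = p - 3 + 1 := by omega
    rw [this]; push_cast; ring
  have e1 : p - 3 + 1 = p - 2 := by omega
  have e2 : p - 2 - (p - 3) = 1 := by omega
  have hne : ((p - 2 : ℕ) : ℚ) ≠ 0 := by
    have : 0 < p - 2 := by omega
    positivity
  have h1 : bernoulli (p - 3) * ((p - 3 + 1).choose (p - 3) : ℚ) * (p : ℚ) ^ (p - 3 + 1 - (p - 3)) /
      (((p - 3 : ℕ) : ℚ) + 1) = p * bernoulli (p - 3) := by
    rw [Nat.choose_succ_self_right, hp3, e1, e2]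
    field_simp
  rw [h1, add_sub_cancel_right]
  refine sum_mem fun i hi => ?_
  have hi' := mem_range.1 hi
  rw [hp3, div_eq_mul_inv]
  refine Ip_mul_right (Ip_mul_left (mul_mem (bernoulli_mem i (by omega)) (natCast_mem_ZP _))
    (Ip_mono ?_ (pow_mem_Ip _))) (inv_mem' (by omega) (by omega))
  omega

end Pool.Agent.MP5bfa61
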