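import Mathlib
import Pool.Agent.Lib.MP_5bfa61_nt.Powers

/-!
# Harmonic sums and Bernoulli numbers
-/

set_option autoImplicit false

open Finset

namespace Pool.Agent.MP5bfa61

/-- `∑_{l ≤ n} 1/l^k` -/
def Hk (k n : ℕ) : ℚ := ∑ i ∈ range n, (((i + 1 : ℕ) : ℚ)⁻¹) ^ k

/-- `∑_{j < l ≤ n} 1/(j l^2)` -/
def Hd (n : ℕ) : ℚ := ∑ i ∈ range n, (((i + 1 : ℕ) : ℚ)⁻¹) ^ 2 * Hk 1 i

lemma Hk_succ (k n : ℕ) : Hk k (n + 1) = Hk k n + (((n + 1 : ℕ) : ℚ)⁻¹) ^ k := by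
  rw [Hk, sum_range_succ, ← Hk]

lemma Hd_succ (n : ℕ) : Hd (n + 1) = Hd n + (((n + 1 : ℕ) : ℚ)⁻¹) ^ 2 * Hk 1 n := by
  rw [Hd, sum_range_succ, ← Hd]

lemma sum_Icc_range (k : ℕ) (f : ℕ → ℚ) : ∑ j ∈ Icc 1 k, f j = ∑ i ∈ range k, f (i + 1) := by
  induction k with
  | zero => simp
  | succ k ih => rw [sum_Icc_succ_top (by omega), ih, sum_range_succ]

variable {p : ℕ} [hp : Fact p.Prime]

lemma Hk_mem (k n : ℕ) (hn : n < p) : Hk k n ∈ ZP p := by
  refine sum_mem fun i hi => pow_mem (inv_mem' (by omega) ?_) k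
  have := mem_range.1 hi
  omega

lemma Hd_mem (n : ℕ) (hn : n < p) : Hd n ∈ ZP p := by
  refine sum_mem fun i hi => ?_
  have := mem_range.1 hi
  exact mul_mem (pow_mem (inv_mem' (by omega) (by omega)) 2) (Hk_mem 1 i (by omega))

lemma Hk_full (k : ℕ) (hk1 : 1 ≤ k) (hk2 : k + 2 ≤ p) : Hk k (p - 1) ∈ Ip p 1 := by
  have h1 := sum_pow_mem (p := p) (p - 1 - k)
  rw [if_neg (fun h => by
    have := Nat.le_of_dvd (by omega) h
    omega), add_zero, sum_Icc_range] at h1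
  have h2 : Hk k (p - 1) = ∑ i ∈ range (p - 1), ((i + 1 : ℕ) : ℚ) ^ (p - 1 - k) -
      ∑ i ∈ range (p - 1), (((i + 1 : ℕ) : ℚ) ^ (p - 1 - k) - (((i + 1 : ℕ) : ℚ)⁻¹) ^ k) := by
    rw [Hk, sum_sub_distrib]; ring
  rw [h2]
  refine sub_mem h1 (sum_mem fun i hi => ?_)
  have := mem_range.1 hi
  exact pow_inv_mem (by omega) (by omega) (by omega)

/-- `H(1,2) ≡ B_{p-3}` -/
lemma Hd_full (h5 : 5 ≤ p) : Hd (p - 1) - bernoulli (p - 3) ∈ Ip p 1 := by
  -- replace the inverses by powers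
  have s1 : ∀ i ∈ range (p - 1), (((i + 1 : ℕ) : ℚ)⁻¹) ^ 2 * Hk 1 i -
      ((i + 1 : ℕ) : ℚ) ^ (p - 3) * ∑ j ∈ range (i + 1), (j : ℚ) ^ (p - 2) ∈ Ip p 1 := by
    intro i hi
    have hi' := mem_range.1 hi
    have a1 : ((i + 1 : ℕ) : ℚ) ^ (p - 3) - (((i + 1 : ℕ) : ℚ)⁻¹) ^ 2 ∈ Ip p 1 := by
      have := pow_inv_mem (p := p) (l := i + 1) (k := 2) (by omega) (by omega) (by omega)
      have e : p - 1 - 2 = p - 3 := by omega
      rwa [e] at this
    have a2 : (∑ j ∈ range (i + 1), (j : ℚ) ^ (p - 2)) - Hk 1 i ∈ Ip p 1 := by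
      rw [sum_range_succ', Hk]
      have e0 : ((0 : ℕ) : ℚ) ^ (p - 2) = 0 := by
        rw [Nat.cast_zero, zero_pow (by omega)]
      rw [e0, add_zero, ← sum_sub_distrib]
      refine sum_mem fun j hj => ?_
      have hj' := mem_range.1 hj
      have := pow_inv_mem (p := p) (l := j + 1) (k := 1) (by omega) (by omega) (by omega)
      have e : p - 1 - 1 = p - 2 := by omega
      rwa [e] at this
    have a3 : (∑ j ∈ range (i + 1), (j : ℚ) ^ (p - 2)) ∈ ZP p :=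
      sum_mem fun j _ => pow_mem (natCast_mem_ZP j) _
    have a4 : (((i + 1 : ℕ) : ℚ)⁻¹) ^ 2 ∈ ZP p := pow_mem (inv_mem' (by omega) (by omega)) 2
    have e : (((i + 1 : ℕ) : ℚ)⁻¹) ^ 2 * Hk 1 i -
      ((i + 1 : ℕ) : ℚ) ^ (p - 3) * ∑ j ∈ range (i + 1), (j : ℚ) ^ (p - 2) =
      -((((i + 1 : ℕ) : ℚ) ^ (p - 3) - (((i + 1 : ℕ) : ℚ)⁻¹) ^ 2) *
        (∑ j ∈ range (i + 1), (j : ℚ) ^ (p - 2)) +
      (((i + 1 : ℕ) : ℚ)⁻¹) ^ 2 * ((∑ j ∈ range (i + 1), (j : ℚ) ^ (p - 2)) - Hk 1 i)) := by ring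
    rw [e]
    exact neg_mem (add_mem (Ip_mul_right a1 a3) (Ip_mul_left a4 a2))
  have s2 : Hd (p - 1) - ∑ i ∈ range (p - 1),
      ((i + 1 : ℕ) : ℚ) ^ (p - 3) * ∑ j ∈ range (i + 1), (j : ℚ) ^ (p - 2) ∈ Ip p 1 := by
    rw [Hd, ← sum_sub_distrib]
    exact sum_mem s1
  -- Faulhaber
  let c : ℕ → ℚ := fun i => bernoulli i * ((p - 1).choose i : ℚ) * ((p - 1 : ℕ) : ℚ)⁻¹
  have hc : ∀ i ∈ range (p - 1), c i ∈ ZP p := by
    intro i hi
    have hi' := mem_range.1 hi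
    exact mul_mem (mul_mem (bernoulli_mem i (by omega)) (natCast_mem_ZP _))
      (inv_mem' (by omega) (by omega))
  have s3 : ∑ i ∈ range (p - 1),
      ((i + 1 : ℕ) : ℚ) ^ (p - 3) * ∑ j ∈ range (i + 1), (j : ℚ) ^ (p - 2) =
      ∑ i ∈ range (p - 1), c i * ∑ l ∈ Icc 1 (p - 1), (l : ℚ) ^ (p - 3 + (p - 1 - i)) := by
    have e1 : ∀ l ∈ range (p - 1), ((l + 1 : ℕ) : ℚ) ^ (p - 3) * ∑ j ∈ range (l + 1),
        (j : ℚ) ^ (p - 2) = ∑ i ∈ range (p - 1), c i * ((l + 1 : ℕ) : ℚ) ^ (p - 3 + (p - 1 - i)) := by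
      intro l _
      have e2 : p - 2 + 1 = p - 1 := by omega
      have e3 : ((p - 2 : ℕ) : ℚ) + 1 = ((p - 1 : ℕ) : ℚ) := by
        rw [← e2]; push_cast; ring
      rw [sum_range_pow, e2, mul_sum]
      refine sum_congr rfl fun i _ => ?_
      rw [e3, pow_add]
      simp only [c]
      rw [div_eq_mul_inv]
      ring
    rw [sum_congr rfl e1, sum_comm]
    refine sum_congr rfl fun i _ => ?_
    rw [← mul_sum, sum_Icc_range]
  have s4 : (∑ i ∈ range (p - 1), c i * ∑ l ∈ Icc 1 (p - 1), (l : ℚ) ^ (p - 3 + (p - 1 - i))) +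
      c (p - 3) ∈ Ip p 1 := by
    have e1 : c (p - 3) = ∑ i ∈ range (p - 1), c i *
        (if (p - 1) ∣ (p - 3 + (p - 1 - i)) then (1 : ℚ) else 0) := by
      rw [sum_eq_single (p - 3)]
      · rw [if_pos, mul_one]
        have : p - 3 + (p - 1 - (p - 3)) = p - 1 := by omega
        rw [this]
      · intro i hi hne
        have hi' := mem_range.1 hi
        rw [if_neg, mul_zero]
        rintro ⟨d, hd⟩
        have hd1 : d = 1 := by
          rcases d with _ | _ | d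
          · simp at hd; omega
          · rfl
          · exfalso
            have : (p - 1) * (d + 1 + 1) = (p - 1) * d + 2 * (p - 1) := by ring
            rw [this] at hd
            have h0 : 0 ≤ (p - 1) * d := Nat.zero_le _
            omega
        rw [hd1, mul_one] at hd
        omega
      · intro h
        exact absurd (mem_range.2 (by omega)) h
    rw [e1, ← sum_add_distrib]
    refine sum_mem fun i hi => ?_
    rw [← mul_add]
    exact Ip_mul_left (hc i hi) (sum_pow_mem _)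
  -- the coefficient
  have s5 : -c (p - 3) - bernoulli (p - 3) ∈ Ip p 1 := by
    have h2 : p ≠ 2 := by omega
    have hb := bernoulli_mem (p := p) (p - 3) (by omega)
    have e1 : ((p - 1).choose (p - 3) : ℚ) = ((p - 1 : ℕ) : ℚ) * ((p - 2 : ℕ) : ℚ) / 2 := by
      have e2 : (p - 1).choose (p - 3) = (p - 1).choose 2 := by
        rw [← Nat.choose_symm (show 2 ≤ p - 1 by omega)]
        congr 1
      rw [e2, Nat.cast_choose_two]
      congr 2
      have : p - 1 = p - 2 + 1 := by omega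
      rw [this]; push_cast; ring
    have hp1 : ((p - 1 : ℕ) : ℚ) ≠ 0 := by
      have : 0 < p - 1 := by omega
      positivity
    have e3 : ((p - 2 : ℕ) : ℚ) = p - 2 := by
      rw [Nat.cast_sub (by omega)]; norm_num
    have e4 : -c (p - 3) - bernoulli (p - 3) = p ^ 1 * (-(1 / 2) * bernoulli (p - 3)) := by
      simp only [c]
      rw [e1, e3]
      field_simp
      ring
    rw [e4]
    refine p_mul_mem (mul_mem (neg_mem ?_) hb)
    have h : ¬ p ∣ 2 := fun h => h2 ((Nat.prime_dvd_prime_iff_eq hp.out Nat.prime_two).1 h)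
    have := inv_nat_mem h
    simpa using this
  rw [s3] at s2
  have e : Hd (p - 1) - bernoulli (p - 3) =
      (Hd (p - 1) - ∑ i ∈ range (p - 1), c i *
        ∑ l ∈ Icc 1 (p - 1), (l : ℚ) ^ (p - 3 + (p - 1 - i))) +
      ((∑ i ∈ range (p - 1), c i * ∑ l ∈ Icc 1 (p - 1), (l : ℚ) ^ (p - 3 + (p - 1 - i))) +
      c (p - 3)) + (-c (p - 3) - bernoulli (p - 3)) := by ring
  rw [e]
  exact add_mem (add_mem s2 s4) s5

end Pool.Agent.MP5bfa61
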