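import Mathlib
import Pool.Agent.Lib.MP_5bfa61_nt.Harmonic
import Pool.Agent.Lib.MP_5bfa61_nt.Exact

/-!
# Half-range harmonic sums
-/

set_option autoImplicit false

open Finset

namespace Pool.Agent.MP5bfa61

lemma fold1 (h : ℕ) (f : ℕ → ℚ) :
    ∑ j ∈ range (2 * h + 1), f j = f 0 + ∑ l ∈ range h, (f (l + 1) + f (2 * h + 1 - (l + 1))) := by
  have e : 2 * h + 1 = (h + 1) + h := by ring
  rw [sum_add_distrib, ← add_assoc]
  conv_lhs => rw [e]
  rw [sum_range_add, sum_range_succ', add_comm (f 0)]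
  congr 1
  rw [← sum_range_reflect]
  refine sum_congr rfl fun j hj => ?_
  have := mem_range.1 hj
  congr 1
  omega

lemma fold2 (h : ℕ) (f : ℕ → ℚ) :
    ∑ j ∈ range (2 * h + 1), f j =
      f 0 + ∑ l ∈ range h, (f (2 * (l + 1)) + f (2 * h + 1 - 2 * (l + 1))) := by
  have e : ∀ h : ℕ, ∑ j ∈ range (2 * h + 1), f j =
      f 0 + (∑ l ∈ range h, f (2 * (l + 1)) + ∑ l ∈ range h, f (2 * l + 1)) := by
    intro h
    induction h with
    | zero => simp
    | succ h ih =>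
      have : 2 * (h + 1) + 1 = 2 * h + 1 + 1 + 1 := by ring
      rw [this, sum_range_succ, sum_range_succ, ih, sum_range_succ, sum_range_succ]
      have : 2 * (h + 1) = 2 * h + 1 + 1 := by ring
      rw [this]
      ring
  rw [e, sum_add_distrib]
  congr 2
  rw [← sum_range_reflect]
  refine sum_congr rfl fun j hj => ?_
  have := mem_range.1 hj
  congr 1
  omega

variable {p : ℕ} [hp : Fact p.Prime]

lemma small_inv (n : ℕ) (h1 : 1 ≤ n) (h2 : n < p) : ((n : ℚ))⁻¹ ∈ ZP p := inv_mem' h1 h2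

lemma third_mem (h5 : 5 ≤ p) : (1 / 3 : ℚ) ∈ ZP p := by
  have := small_inv (p := p) 3 (by omega) (by omega)
  simpa using this

lemma half_mem5 (h5 : 5 ≤ p) : (1 / 2 : ℚ) ∈ ZP p := by
  have := small_inv (p := p) 2 (by omega) (by omega)
  simpa using this

lemma pow_expand {y z : ℚ} (hy : y ∈ ZP p) (hz : z ∈ ZP p) (e : ℕ) :
    (y + p * z) ^ (e + 1) - (y ^ (e + 1) + (e + 1) * p * z * y ^ e) ∈ Ip p 2 := by
  have hpp : (p : ℚ) ∈ ZP p := natCast_mem_ZP p
  induction e with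
  | zero =>
    have : (y + p * z) ^ (0 + 1) - (y ^ (0 + 1) + (((0 : ℕ) : ℚ) + 1) * p * z * y ^ 0) = 0 := by
      push_cast; ring
    rw [this]; exact zero_mem _
  | succ e ih =>
    have h1 : (y + p * z) ^ (e + 1 + 1) -
        (y ^ (e + 1 + 1) + (((e + 1 : ℕ) : ℚ) + 1) * p * z * y ^ (e + 1)) =
        ((y + p * z) ^ (e + 1) - (y ^ (e + 1) + (e + 1) * p * z * y ^ e)) * (y + p * z) +
        (p : ℚ) ^ 2 * (((e + 1 : ℕ) : ℚ) * z ^ 2 * y ^ e) := by
      push_cast; ring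
    rw [h1]
    refine add_mem (Ip_mul_right ih (add_mem hy (mul_mem hpp hz))) (p_mul_mem ?_)
    exact mul_mem (mul_mem (natCast_mem_ZP _) (pow_mem hz 2)) (pow_mem hy e)

lemma reflect_pow (h5 : 5 ≤ p) (hodd : Odd p) {y : ℚ} (hy : y ∈ ZP p) :
    (p - y) ^ (p - 3) - (y ^ (p - 3) + 3 * p * y ^ (p - 4)) ∈ Ip p 2 := by
  have e1 : p - 3 = (p - 4) + 1 := by omega
  have h1 := pow_expand (p := p) (neg_mem hy) (one_mem (ZP p)) (p - 4)
  rw [← e1] at h1
  have he : Even (p - 3) := by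
    rw [Nat.even_sub (by omega)]
    constructor
    · intro h; exact absurd h (Nat.not_even_iff_odd.2 hodd)
    · intro h; exact absurd h (by decide)
  have ho : Odd (p - 4) := by
    rw [Nat.odd_sub (by omega)]
    constructor
    · intro _; decide
    · intro _; exact hodd
  rw [he.neg_pow, ho.neg_pow] at h1
  have e2 : ((p - 4 : ℕ) : ℚ) = p - 4 := by
    rw [Nat.cast_sub (by omega)]; norm_num
  rw [e2] at h1
  have e3 : (p - y) ^ (p - 3) - (y ^ (p - 3) + 3 * p * y ^ (p - 4)) =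
      ((-y + p * 1) ^ (p - 3) - (y ^ (p - 3) + ((p : ℚ) - 4 + 1) * p * 1 * -y ^ (p - 4))) -
      (p : ℚ) ^ 2 * y ^ (p - 4) := by
    have : (-y + (p : ℚ) * 1) = p - y := by ring
    rw [this]
    ring
  rw [e3]
  exact sub_mem h1 (p_mul_mem (pow_mem hy _))

/-- `∑_{l ≤ h} 1/l^3 ≡ -2 B_{p-3}` -/
lemma H3_half (h5 : 5 ≤ p) (h : ℕ) (hh : p = 2 * h + 1) :
    Hk 3 h + 2 * bernoulli (p - 3) ∈ Ip p 1 := by
  have hodd : Odd p := ⟨h, hh⟩
  set P := ∑ j ∈ range p, (j : ℚ) ^ (p - 3) with hP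
  set s := ∑ l ∈ range h, ((l + 1 : ℕ) : ℚ) ^ (p - 3) with hs
  set s' := ∑ l ∈ range h, ((l + 1 : ℕ) : ℚ) ^ (p - 4) with hs'
  have hPB := sum_pow_bernoulli (p := p) h5
  rw [← hP] at hPB
  have hB := bernoulli_mem (p := p) (p - 3) (by omega)
  have hsm : s ∈ ZP p := sum_mem fun l _ => pow_mem (natCast_mem_ZP _) _
  have hsm' : s' ∈ ZP p := sum_mem fun l _ => pow_mem (natCast_mem_ZP _) _
  have z0 : ((0 : ℕ) : ℚ) ^ (p - 3) = 0 := by rw [Nat.cast_zero, zero_pow (by omega)]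
  have E1 : P - (2 * s + 3 * p * s') ∈ Ip p 2 := by
    have e : P - (2 * s + 3 * p * s') = ∑ l ∈ range h, ((p - ((l + 1 : ℕ) : ℚ)) ^ (p - 3) -
        (((l + 1 : ℕ) : ℚ) ^ (p - 3) + 3 * p * ((l + 1 : ℕ) : ℚ) ^ (p - 4))) := by
      have e1 : P = ∑ l ∈ range h, (((l + 1 : ℕ) : ℚ) ^ (p - 3) +
          (p - ((l + 1 : ℕ) : ℚ)) ^ (p - 3)) := by
        rw [hP]
        conv_lhs => rw [show range p = range (2 * h + 1) by rw [← hh]]
        rw [fold1, z0, zero_add]
        refine sum_congr rfl fun l hl => ?_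
        have hl' := mem_range.1 hl
        congr 2
        rw [← hh, Nat.cast_sub (by omega)]
      rw [e1, hs, hs', mul_sum, mul_sum, ← sum_add_distrib, ← sum_sub_distrib]
      refine sum_congr rfl fun l _ => ?_
      ring
    rw [e]
    exact sum_mem fun l _ => reflect_pow h5 hodd (natCast_mem_ZP _)
  have E2 : P - (2 * 2 ^ (p - 3) * s + 3 * p * 2 ^ (p - 4) * s') ∈ Ip p 2 := by
    have e : P - (2 * 2 ^ (p - 3) * s + 3 * p * 2 ^ (p - 4) * s') =
        ∑ l ∈ range h, ((p - 2 * ((l + 1 : ℕ) : ℚ)) ^ (p - 3) -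
        ((2 * ((l + 1 : ℕ) : ℚ)) ^ (p - 3) + 3 * p * (2 * ((l + 1 : ℕ) : ℚ)) ^ (p - 4))) := by
      have e1 : P = ∑ l ∈ range h, ((2 * ((l + 1 : ℕ) : ℚ)) ^ (p - 3) +
          (p - 2 * ((l + 1 : ℕ) : ℚ)) ^ (p - 3)) := by
        rw [hP]
        conv_lhs => rw [show range p = range (2 * h + 1) by rw [← hh]]
        rw [fold2, z0, zero_add]
        refine sum_congr rfl fun l hl => ?_
        have hl' := mem_range.1 hl
        congr 2
        · push_cast; ring
        · rw [← hh, Nat.cast_sub (by omega)]; push_cast; ring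
      rw [e1, hs, hs', mul_sum, mul_sum, ← sum_add_distrib, ← sum_sub_distrib]
      refine sum_congr rfl fun l _ => ?_
      rw [mul_pow, mul_pow]
      ring
    rw [e]
    exact sum_mem fun l _ => reflect_pow h5 hodd (mul_mem (natCast_mem_ZP 2) (natCast_mem_ZP _))
  have two : (2 : ℚ) ^ (p - 1) - 1 ∈ Ip p 1 := by
    have := fermat (p := p) (l := 2) (by omega) (by omega)
    simpa using this
  have pB : (p : ℚ) * bernoulli (p - 3) ∈ Ip p 1 := by
    have := p_mul_mem (m := 1) hB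
    simpa using this
  have ps' : (p : ℚ) * s' ∈ Ip p 1 := by
    have := p_mul_mem (m := 1) hsm'
    simpa using this
  have hP1 : P ∈ Ip p 1 := by
    have := add_mem (Ip_mono (show 1 ≤ 2 by norm_num) hPB) pB
    simpa using this
  have hs1 : s ∈ Ip p 1 := by
    have e : s = (1 / 2) * (P - 3 * (p * s') - (P - (2 * s + 3 * p * s'))) := by ring
    rw [e]
    refine Ip_mul_left (half_mem5 h5) (sub_mem (sub_mem hP1 ?_) (Ip_mono (by norm_num) E1))
    exact Ip_mul_left (natCast_mem_ZP 3) ps'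
  have h23 : (2 : ℚ) ^ (p - 1) = 4 * 2 ^ (p - 3) := by
    have : p - 1 = p - 3 + 2 := by omega
    rw [this, pow_add]; ring
  have h24 : (2 : ℚ) ^ (p - 1) = 8 * 2 ^ (p - 4) := by
    have : p - 1 = p - 4 + 3 := by omega
    rw [this, pow_add]; ring
  have E3 : 8 * P - (4 * s + 3 * p * s') ∈ Ip p 2 := by
    have e : 8 * P - (4 * s + 3 * p * s') =
        8 * (P - (2 * 2 ^ (p - 3) * s + 3 * p * 2 ^ (p - 4) * s')) +
        (2 ^ (p - 1) - 1) * (4 * s + 3 * (p * s')) := by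
      linear_combination (-4 * s) * h23 - (3 * p * s') * h24
    rw [e]
    refine add_mem (Ip_mul_left (natCast_mem_ZP 8) E2) (Ip_mul (m := 1) (k := 1) two ?_)
    exact add_mem (Ip_mul_left (natCast_mem_ZP 4) hs1) (Ip_mul_left (natCast_mem_ZP 3) ps')
  have E4 : (p : ℚ) * (6 * bernoulli (p - 3) + 3 * s') ∈ Ip p (1 + 1) := by
    have e : (p : ℚ) * (6 * bernoulli (p - 3) + 3 * s') =
        (8 * P - (4 * s + 3 * p * s')) - 2 * (P - (2 * s + 3 * p * s')) -
        6 * (P - p * bernoulli (p - 3)) := by ring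
    rw [e]
    exact sub_mem (sub_mem E3 (Ip_mul_left (natCast_mem_ZP 2) E1))
      (Ip_mul_left (natCast_mem_ZP 6) hPB)
  have E5 := mul_cancel_mem E4
  have E6 : s' + 2 * bernoulli (p - 3) ∈ Ip p 1 := by
    have e : s' + 2 * bernoulli (p - 3) = (1 / 3) * (6 * bernoulli (p - 3) + 3 * s') := by ring
    rw [e]
    exact Ip_mul_left (third_mem h5) E5
  have E7 : s' - Hk 3 h ∈ Ip p 1 := by
    rw [hs', Hk, ← sum_sub_distrib]
    refine sum_mem fun l hl => ?_
    have hl' := mem_range.1 hl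
    have := pow_inv_mem (p := p) (l := l + 1) (k := 3) (by omega) (by omega) (by omega)
    have e : p - 1 - 3 = p - 4 := by omega
    rwa [e] at this
  have e : Hk 3 h + 2 * bernoulli (p - 3) = (s' + 2 * bernoulli (p - 3)) - (s' - Hk 3 h) := by ring
  rw [e]
  exact sub_mem E6 E7

end Pool.Agent.MP5bfa61
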