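import Mathlib
import Pool.Agent.Lib.MP_5bfa61_nt.Exact

/-!
# The product form of the exact formula
-/

set_option autoImplicit false

open Finset

namespace Pool.Agent.MP5bfa61

lemma prod_up (A n : ℕ) :
    (∏ j ∈ range n, ((A : ℚ) + (j + 1))) * (Nat.factorial A : ℚ) = (Nat.factorial (A + n) : ℚ) := by
  induction n with
  | zero => simp
  | succ n ih =>
    rw [prod_range_succ, ← Nat.add_assoc A n 1, Nat.factorial_succ]
    push_cast
    rw [← ih]
    ring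

lemma prod_down (A n : ℕ) :
    (∏ j ∈ range n, ((A : ℚ) + n - j)) * (Nat.factorial A : ℚ) = (Nat.factorial (A + n) : ℚ) := by
  rw [← prod_up, ← prod_range_reflect]
  congr 1
  refine prod_congr rfl fun j hj => ?_
  have hj' := mem_range.1 hj
  have h1 : ((n - 1 - j : ℕ) : ℚ) = n - 1 - j := by
    rw [Nat.sub_sub, Nat.cast_sub (by omega)]
    push_cast
    ring
  rw [h1]
  ring

lemma prod_odd (n : ℕ) :
    (∏ j ∈ range n, (2 * (n : ℚ) + 1 - 2 * (j + 1))) * (2 ^ n * (Nat.factorial n : ℚ)) =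
      (Nat.factorial (2 * n) : ℚ) := by
  have h0 : ∏ j ∈ range n, (2 * (n : ℚ) + 1 - 2 * (j + 1)) = ∏ j ∈ range n, (2 * (j : ℚ) + 1) := by
    rw [← prod_range_reflect]
    refine prod_congr rfl fun j hj => ?_
    have hj' := mem_range.1 hj
    have h1 : ((n - 1 - j : ℕ) : ℚ) = n - 1 - j := by
      rw [Nat.sub_sub, Nat.cast_sub (by omega)]
      push_cast
      ring
    rw [h1]
    ring
  rw [h0]
  induction n with
  | zero => simp
  | succ n ih =>
    have h2 : 2 * (n + 1) = 2 * n + 1 + 1 := by ring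
    rw [prod_range_succ, h2, Nat.factorial_succ (2 * n + 1), Nat.factorial_succ (2 * n), pow_succ,
      Nat.factorial_succ n]
    push_cast
    have ih' : (∏ j ∈ range n, (2 * (j : ℚ) + 1)) * (2 ^ n * (Nat.factorial n : ℚ)) =
      (Nat.factorial (2 * n) : ℚ) := by
      apply ih
      rw [← prod_range_reflect]
      refine prod_congr rfl fun j hj => ?_
      have hj' := mem_range.1 hj
      have h1 : ((n - 1 - j : ℕ) : ℚ) = n - 1 - j := by
        rw [Nat.sub_sub, Nat.cast_sub (by omega)]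
        push_cast
        ring
      rw [h1]
      ring
    rw [← ih']
    ring

/-- the factor `Ω(x)` -/
def Om (x : ℚ) : ℚ := (1 - 4 * x ^ 2) * (1 - 3 * x) * (1 - x / 2) ^ 2 / (1 - x) ^ 4

/-- the sum `σ(N)` -/
def sig (n : ℕ) : ℚ :=
  ∑ l ∈ range (n + 1), P (2 * n + 1) l * P ((2 * n + 1) / 2) l / (Nat.factorial l : ℚ) ^ 2

lemma Om_eq (n j : ℕ) (hj : j < n) :
    Om ((2 * n + 1) / (j + 1)) =
      ((((3 * n + 1 : ℕ) : ℚ) + n - j) * (((4 * n + 2 : ℕ) : ℚ) + (j + 1)) *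
        (((5 * n + 2 : ℕ) : ℚ) + n - j) * (2 * (n : ℚ) + 1 - 2 * (j + 1)) ^ 2) /
        (4 * (((0 : ℕ) : ℚ) + (j + 1)) * ((n : ℚ) + n - j) ^ 4) := by
  have h1 : ((j : ℚ) + 1) ≠ 0 := by positivity
  have h2 : ((n : ℚ) + n - j) ≠ 0 := by
    have : (j : ℚ) < n := by exact_mod_cast hj
    have : (0 : ℚ) ≤ n := by positivity
    linarith
  have h3 : (1 : ℚ) - (2 * n + 1) / (j + 1) = -((n : ℚ) + n - j) / (j + 1) := by
    field_simp
    ring
  rw [Om, h3]
  push_cast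
  field_simp
  ring

theorem SS_prod (n : ℕ) :
    SS (2 * n + 1) = (2 * n + 1) * (3 * (∏ j ∈ range n, Om ((2 * n + 1) / (j + 1))) * sig n) := by
  have h0 := SS_odd n
  have hP : P (2 * n + 1 + 1) n = ∏ j ∈ range n, (((2 * n + 1 : ℕ) : ℚ) + (j + 1)) := by
    rw [P]
    refine prod_congr rfl fun j _ => ?_
    push_cast
    ring
  have hprod : ∏ j ∈ range n, Om ((2 * n + 1) / (j + 1)) =
      ((∏ j ∈ range n, (((3 * n + 1 : ℕ) : ℚ) + n - j)) *
      (∏ j ∈ range n, (((4 * n + 2 : ℕ) : ℚ) + (j + 1))) *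
      (∏ j ∈ range n, (((5 * n + 2 : ℕ) : ℚ) + n - j)) *
      (∏ j ∈ range n, (2 * (n : ℚ) + 1 - 2 * (j + 1))) ^ 2) /
      (4 ^ n * (∏ j ∈ range n, (((0 : ℕ) : ℚ) + (j + 1))) *
        (∏ j ∈ range n, ((n : ℚ) + n - j)) ^ 4) := by
    rw [prod_congr rfl fun j hj => Om_eq n j (mem_range.1 hj)]
    simp only [prod_div_distrib, prod_mul_distrib, prod_pow, prod_const, card_range]
  have e1 := prod_down (3 * n + 1) n
  have e2 := prod_up (4 * n + 2) n
  have e3 := prod_down (5 * n + 2) n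
  have e4 := prod_odd n
  have e5 := prod_up 0 n
  have e6 := prod_down n n
  have e7 := prod_up (2 * n + 1) n
  have f : ∀ k : ℕ, (Nat.factorial k : ℚ) ≠ 0 := fun k => by positivity
  have a1 : 3 * n + 1 + n = 4 * n + 1 := by ring
  have a2 : 4 * n + 2 + n = 5 * n + 2 := by ring
  have a3 : 5 * n + 2 + n = 6 * n + 2 := by ring
  have a6 : n + n = 2 * n := by ring
  have a7 : 2 * n + 1 + n = 3 * n + 1 := by ring
  have b1 : 4 * n + 2 = 4 * n + 1 + 1 := by ring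
  rw [a1] at e1
  rw [a2] at e2
  rw [a3] at e3
  rw [zero_add, Nat.factorial_zero] at e5
  rw [a6] at e6
  rw [a7] at e7
  have g1 : ∏ j ∈ range n, (((3 * n + 1 : ℕ) : ℚ) + n - j) =
    (Nat.factorial (4 * n + 1) : ℚ) / (Nat.factorial (3 * n + 1) : ℚ) := by
    rw [eq_div_iff (f _)]; exact e1
  have g2 : ∏ j ∈ range n, (((4 * n + 2 : ℕ) : ℚ) + (j + 1)) =
    (Nat.factorial (5 * n + 2) : ℚ) / (Nat.factorial (4 * n + 2) : ℚ) := by
    rw [eq_div_iff (f _)]; exact e2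
  have g3 : ∏ j ∈ range n, (((5 * n + 2 : ℕ) : ℚ) + n - j) =
    (Nat.factorial (6 * n + 2) : ℚ) / (Nat.factorial (5 * n + 2) : ℚ) := by
    rw [eq_div_iff (f _)]; exact e3
  have g4 : ∏ j ∈ range n, (2 * (n : ℚ) + 1 - 2 * (j + 1)) =
    (Nat.factorial (2 * n) : ℚ) / (2 ^ n * (Nat.factorial n : ℚ)) := by
    rw [eq_div_iff (mul_ne_zero (by positivity) (f _))]; exact e4
  have g5 : ∏ j ∈ range n, (((0 : ℕ) : ℚ) + (j + 1)) = (Nat.factorial n : ℚ) := by
    rw [← e5]; simp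
  have g6 : ∏ j ∈ range n, ((n : ℚ) + n - j) =
    (Nat.factorial (2 * n) : ℚ) / (Nat.factorial n : ℚ) := by
    rw [eq_div_iff (f _)]; exact e6
  have g7 : P (2 * n + 1 + 1) n =
    (Nat.factorial (3 * n + 1) : ℚ) / (Nat.factorial (2 * n + 1) : ℚ) := by
    rw [hP, eq_div_iff (f _)]; exact e7
  rw [g7, al_eq] at h0
  rw [← sig] at h0
  rw [hprod, g1, g2, g3, g4, g5, g6]
  have c1 : 3 * (2 * n + 1) = 6 * n + 2 + 1 := by ring
  rw [c1, Nat.factorial_succ (6 * n + 2)] at h0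
  rw [b1, Nat.factorial_succ (4 * n + 1)]
  have d1 : (Nat.factorial (2 * n + 1) : ℚ) = (2 * n + 1) * (Nat.factorial (2 * n) : ℚ) := by
    rw [Nat.factorial_succ]; push_cast; ring
  rw [d1] at h0
  have h2n : (2 * (n : ℚ) + 1) ≠ 0 := by positivity
  have h16 : (4 : ℚ) ^ (2 * n + 1) = 4 * 4 ^ n * 4 ^ n := by
    rw [pow_succ, two_mul, pow_add]; ring
  have h22 : (2 : ℚ) ^ n * 2 ^ n = 4 ^ n := by rw [← mul_pow]; norm_num
  rw [h16] at h0
  have hA : SS (2 * n + 1) = (Nat.factorial n : ℚ) * ((2 * n + 1) * (Nat.factorial (2 * n) : ℚ)) /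
      (Nat.factorial (3 * n + 1) : ℚ) *
      (2 * (2 * n + 1) * ((((6 * n + 2 + 1 : ℕ) * Nat.factorial (6 * n + 2) : ℕ) : ℚ) /
        (((2 * n + 1) * (Nat.factorial (2 * n) : ℚ)) ^ 3 * (4 * 4 ^ n * 4 ^ n))) * sig n) := by
    rw [← h0]
    have := f n
    have := f (2 * n)
    have := f (3 * n + 1)
    field_simp
  rw [hA]
  have := f n
  have := f (2 * n)
  have := f (3 * n + 1)
  have := f (4 * n + 1)
  have := f (5 * n + 2)
  have h4n : (4 * (n : ℚ) + 1 + 1) ≠ 0 := by positivity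
  push_cast
  rw [mul_pow, div_pow, mul_pow, ← pow_mul, mul_comm n 2, pow_mul]
  norm_num
  field_simp
  ring

end Pool.Agent.MP5bfa61
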