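import Mathlib
import Pool.Agent.Lib.MP_5bfa61_nt.Products
import Pool.Agent.Lib.MP_5bfa61_nt.Basic

/-!
# Reduction from `p^a` to `p`
-/

set_option autoImplicit false

open Finset

namespace Pool.Agent.MP5bfa61

lemma prod_Icc_one (k : ℕ) (f : ℕ → ℚ) : ∏ j ∈ Icc 1 k, f j = ∏ i ∈ range k, f (i + 1) := by
  induction k with
  | zero => simp
  | succ k ih => rw [prod_Icc_succ_top (by omega), ih, prod_range_succ]

lemma sum_Icc_one (k : ℕ) (f : ℕ → ℚ) : ∑ j ∈ Icc 1 k, f j = ∑ i ∈ range k, f (i + 1) := by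
  induction k with
  | zero => simp
  | succ k ih => rw [sum_Icc_succ_top (by omega), ih, sum_range_succ]

/-- `(1+x)(1+x/2)` -/
def F2 (x : ℚ) : ℚ := (1 + x) * (1 + x / 2)

/-- the term of `σ` -/
def term (N : ℚ) (l : ℕ) : ℚ := (N / l) ^ 2 / 2 * ∏ j ∈ Icc 1 (l - 1), F2 (N / j)

/-- the product and the sum -/
def TT (N : ℚ) (n : ℕ) : ℚ :=
  3 * (∏ j ∈ Icc 1 n, Om (N / j)) * (1 + ∑ l ∈ Icc 1 n, term N l)

lemma P_div (x : ℚ) (k : ℕ) :
    P x (k + 1) / (Nat.factorial (k + 1) : ℚ) = x / (k + 1) * ∏ i ∈ range k, (1 + x / (i + 1)) := by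
  induction k with
  | zero => simp [P]
  | succ k ih =>
    rw [P_succ, Nat.factorial_succ, prod_range_succ]
    have h1 : P x (k + 1) = x / (k + 1) * (∏ i ∈ range k, (1 + x / (i + 1))) *
        (Nat.factorial (k + 1) : ℚ) := by
      rw [← ih]
      have : (Nat.factorial (k + 1) : ℚ) ≠ 0 := by positivity
      field_simp
    rw [h1]
    push_cast
    have : (Nat.factorial (k + 1) : ℚ) ≠ 0 := by positivity
    field_simp
    ring

lemma sig_eq (n : ℕ) : sig n = 1 + ∑ l ∈ Icc 1 n, term (2 * n + 1) l := by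
  rw [sig, sum_range_succ', sum_Icc_one, add_comm]
  congr 1
  · simp [P]
  · refine sum_congr rfl fun k _ => ?_
    have h1 := P_div (2 * n + 1) k
    have h2 := P_div ((2 * n + 1) / 2) k
    have h3 : P (2 * n + 1) (k + 1) * P ((2 * n + 1) / 2) (k + 1) /
        (Nat.factorial (k + 1) : ℚ) ^ 2 =
        (P (2 * n + 1) (k + 1) / (Nat.factorial (k + 1) : ℚ)) *
        (P ((2 * n + 1) / 2) (k + 1) / (Nat.factorial (k + 1) : ℚ)) := by
      ring
    rw [h3, h1, h2, term, Nat.add_sub_cancel, prod_Icc_one]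
    have h4 : ∏ i ∈ range k, F2 ((2 * (n : ℚ) + 1) / ((i + 1 : ℕ) : ℚ)) =
        (∏ i ∈ range k, (1 + (2 * (n : ℚ) + 1) / (i + 1))) *
        ∏ i ∈ range k, (1 + (2 * (n : ℚ) + 1) / 2 / (i + 1)) := by
      rw [← prod_mul_distrib]
      refine prod_congr rfl fun i _ => ?_
      rw [F2]
      push_cast
      congr 2
      ring
    rw [h4]
    push_cast
    ring

theorem SS_TT (n : ℕ) : SS (2 * n + 1) = (2 * n + 1) * TT (2 * n + 1) n := by
  rw [SS_prod, TT, sig_eq, prod_Icc_one]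
  push_cast
  ring

section

variable {p : ℕ} [hp : Fact p.Prime]

lemma div_mem_two (b j : ℕ) (hj : j ≠ 0) (h : ¬ p ^ b ∣ j) :
    ((p ^ (b + 1) : ℕ) : ℚ) / j ∈ Ip p 2 := by
  obtain ⟨v, j0, hj0, hjv⟩ := Nat.exists_eq_pow_mul_and_not_dvd hj p hp.out.ne_one
  have hv : v < b := by
    by_contra hcon
    push Not at hcon
    exact h (hjv ▸ (pow_dvd_pow p hcon).trans (dvd_mul_right _ _))
  obtain ⟨d, rfl⟩ := Nat.exists_eq_add_of_lt hv
  have hp0 : (p : ℚ) ≠ 0 := by exact_mod_cast hp.out.ne_zero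
  have hj00 : (j0 : ℚ) ≠ 0 := by
    rintro h0
    have : j0 = 0 := by exact_mod_cast h0
    exact hj0 (this ▸ dvd_zero p)
  refine ⟨(p : ℚ) ^ d * (j0 : ℚ)⁻¹, mul_mem (pow_mem (natCast_mem_ZP p) d) (inv_nat_mem hj0), ?_⟩
  rw [hjv]
  push_cast
  rw [show v + d + 1 + 1 = v + d + 2 by ring, pow_add, pow_add]
  field_simp

lemma div_mem_one (b j : ℕ) (hj : j ≠ 0) (hlt : j < p ^ (b + 1)) :
    ((p ^ (b + 1) : ℕ) : ℚ) / j ∈ Ip p 1 := by
  by_cases h : p ^ b ∣ j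
  · obtain ⟨j', rfl⟩ := h
    have h1 : ¬ p ∣ j' := by
      intro hdvd
      have hj' : j' ≠ 0 := by rintro rfl; simp at hj
      have h2 := Nat.le_of_dvd (Nat.pos_of_ne_zero hj') hdvd
      have h3 : p ^ b * p ≤ p ^ b * j' := Nat.mul_le_mul_left _ h2
      rw [pow_succ] at hlt
      omega
    have hp0 : (p : ℚ) ≠ 0 := by exact_mod_cast hp.out.ne_zero
    refine ⟨(j' : ℚ)⁻¹, inv_nat_mem h1, ?_⟩
    push_cast
    rw [pow_succ]
    have hj' : (j' : ℚ) ≠ 0 := by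
      rintro h0
      have : j' = 0 := by exact_mod_cast h0
      exact h1 (this ▸ dvd_zero p)
    field_simp
  · exact Ip_mono (by norm_num) (div_mem_two b j hj h)

/-- The reduction lemma for products. -/
lemma prod_reduce (b L L' m : ℕ) (hL : L < p ^ (b + 1)) (h1 : p ^ b * L' ≤ L)
    (h2 : L < p ^ b * (L' + 1)) (F : ℚ → ℚ) (hF : ∀ x ∈ Ip p 2, F x - 1 ∈ Ip p m)
    (hF' : ∀ x ∈ Ip p 1, F x ∈ ZP p) :
    ∏ j ∈ Icc 1 L, F (((p ^ (b + 1) : ℕ) : ℚ) / j) - ∏ j ∈ Icc 1 L', F ((p : ℚ) / j) ∈ Ip p m := by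
  classical
  have hq : 0 < p ^ b := pow_pos hp.out.pos b
  rw [← prod_filter_mul_prod_filter_not (Icc 1 L) (fun j => p ^ b ∣ j)]
  have him : (Icc 1 L).filter (fun j => p ^ b ∣ j) = (Icc 1 L').image (fun j => p ^ b * j) := by
    ext j
    simp only [mem_filter, mem_Icc, mem_image]
    constructor
    · rintro ⟨⟨hj1, hj2⟩, j', rfl⟩
      refine ⟨j', ⟨?_, ?_⟩, rfl⟩
      · by_contra hcon
        have : j' = 0 := by omega
        rw [this] at hj1
        simp at hj1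
      · have : p ^ b * j' < p ^ b * (L' + 1) := lt_of_le_of_lt hj2 h2
        have := Nat.lt_of_mul_lt_mul_left this
        omega
    · rintro ⟨j', ⟨hj1, hj2⟩, rfl⟩
      refine ⟨⟨?_, ?_⟩, dvd_mul_right _ _⟩
      · exact Nat.mul_pos hq hj1
      · exact (Nat.mul_le_mul_left _ hj2).trans h1
  rw [him, prod_image (by
    intro x _ y _ hxy
    exact Nat.eq_of_mul_eq_mul_left hq hxy)]
  have hp0 : (p : ℚ) ≠ 0 := by exact_mod_cast hp.out.ne_zero
  have he : ∏ j ∈ Icc 1 L', F (((p ^ (b + 1) : ℕ) : ℚ) / ((p ^ b * j : ℕ) : ℚ)) =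
      ∏ j ∈ Icc 1 L', F ((p : ℚ) / j) := by
    refine prod_congr rfl fun j hj => ?_
    congr 1
    push_cast
    rw [pow_succ]
    have hj' : (j : ℚ) ≠ 0 := by
      have := (mem_Icc.1 hj).1
      positivity
    field_simp
  rw [he]
  have h3 : ∏ j ∈ (Icc 1 L).filter (fun j => ¬ p ^ b ∣ j), F (((p ^ (b + 1) : ℕ) : ℚ) / j) - 1 ∈
      Ip p m := by
    refine prod_one_mod _ _ m fun j hj => ?_
    rw [mem_filter, mem_Icc] at hj
    exact hF _ (div_mem_two b j (by omega) hj.2)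
  have h4 : ∏ j ∈ Icc 1 L', F ((p : ℚ) / j) ∈ ZP p := by
    refine prod_mem fun j hj => hF' _ ?_
    have hj' := mem_Icc.1 hj
    have h5 : p ^ b * j < p ^ (b + 1) :=
      lt_of_le_of_lt ((Nat.mul_le_mul_left _ hj'.2).trans h1) hL
    rw [pow_succ] at h5
    have h6 := Nat.lt_of_mul_lt_mul_left h5
    have := div_mem_one (p := p) 0 j (by omega) (by simpa using h6)
    simpa using this
  have h5 : ∀ A B : ℚ, A * B - A = A * (B - 1) := fun A B => by ring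
  rw [h5]
  exact Ip_mul_left h4 h3

/-- The reduction lemma for sums. -/
lemma sum_reduce (b L L' m : ℕ) (h1 : p ^ b * L' ≤ L)
    (h2 : L < p ^ b * (L' + 1)) (f g : ℕ → ℚ)
    (hf : ∀ j ∈ Icc 1 L, ¬ p ^ b ∣ j → f j ∈ Ip p m)
    (hfg : ∀ j ∈ Icc 1 L', f (p ^ b * j) - g j ∈ Ip p m) :
    ∑ j ∈ Icc 1 L, f j - ∑ j ∈ Icc 1 L', g j ∈ Ip p m := by
  classical
  have hq : 0 < p ^ b := pow_pos hp.out.pos b
  rw [← sum_filter_add_sum_filter_not (Icc 1 L) (fun j => p ^ b ∣ j)]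
  have him : (Icc 1 L).filter (fun j => p ^ b ∣ j) = (Icc 1 L').image (fun j => p ^ b * j) := by
    ext j
    simp only [mem_filter, mem_Icc, mem_image]
    constructor
    · rintro ⟨⟨hj1, hj2⟩, j', rfl⟩
      refine ⟨j', ⟨?_, ?_⟩, rfl⟩
      · by_contra hcon
        have : j' = 0 := by omega
        rw [this] at hj1
        simp at hj1
      · have : p ^ b * j' < p ^ b * (L' + 1) := lt_of_le_of_lt hj2 h2
        have := Nat.lt_of_mul_lt_mul_left this
        omega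
    · rintro ⟨j', ⟨hj1, hj2⟩, rfl⟩
      refine ⟨⟨?_, ?_⟩, dvd_mul_right _ _⟩
      · exact Nat.mul_pos hq hj1
      · exact (Nat.mul_le_mul_left _ hj2).trans h1
  rw [him, sum_image (by
    intro x _ y _ hxy
    exact Nat.eq_of_mul_eq_mul_left hq hxy)]
  have h3 : ∑ j ∈ (Icc 1 L).filter (fun j => ¬ p ^ b ∣ j), f j ∈ Ip p m := by
    refine sum_mem fun j hj => ?_
    rw [mem_filter] at hj
    exact hf _ hj.1 hj.2
  have h4 : ∑ j ∈ Icc 1 L', f (p ^ b * j) - ∑ j ∈ Icc 1 L', g j ∈ Ip p m := by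
    rw [← sum_sub_distrib]
    exact sum_mem hfg
  have h5 : ∀ A B C : ℚ, A + B - C = (A - C) + B := fun A B C => by ring
  rw [h5]
  exact add_mem h4 h3

end

end Pool.Agent.MP5bfa61
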