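import Mathlib
import Pool.Agent.Lib.MP_5bfa61_nt.Reduce

/-!
# The reduction from `p^a` to `p`, conclusion
-/

set_option autoImplicit false

open Finset

namespace Pool.Agent.MP5bfa61

variable {p : ℕ} [hp : Fact p.Prime]

lemma half_mem (h2 : p ≠ 2) : (1 / 2 : ℚ) ∈ ZP p := by
  have h : ¬ p ∣ 2 := fun h => h2 ((Nat.prime_dvd_prime_iff_eq hp.out Nat.prime_two).1 h)
  have := inv_nat_mem h
  simpa using this

/-- `(Ω(x) - 1)/x^2` -/
def W (x : ℚ) : ℚ := (-27 + 77 * x - 56 * x ^ 2 + 12 * x ^ 3) * ((1 / 2) * (1 / 2)) *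
  ((1 - x)⁻¹) ^ 4

lemma Om_sub_one (x : ℚ) (hx : 1 - x ≠ 0) : Om x - 1 = x ^ 2 * W x := by
  rw [Om, W]
  field_simp
  ring

lemma W_mem (h2 : p ≠ 2) {x : ℚ} (hx : x ∈ Ip p 1) : W x ∈ ZP p := by
  have hx0 := Ip_sub_ZP hx
  have hh := half_mem (p := p) h2
  rw [W]
  refine mul_mem (mul_mem ?_ (mul_mem hh hh)) (pow_mem (inv_one_sub_mem hx) 4)
  have i : ∀ n : ℤ, (n : ℚ) ∈ ZP p := fun n => intCast_mem_ZP n
  have e : (-27 + 77 * x - 56 * x ^ 2 + 12 * x ^ 3 : ℚ) =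
      ((-27 : ℤ) : ℚ) + ((77 : ℤ) : ℚ) * x - ((56 : ℤ) : ℚ) * x ^ 2 + ((12 : ℤ) : ℚ) * x ^ 3 := by
    norm_num
  rw [e]
  exact add_mem (sub_mem (add_mem (i _) (mul_mem (i _) hx0)) (mul_mem (i _) (pow_mem hx0 2)))
    (mul_mem (i _) (pow_mem hx0 3))

lemma Om_two (h2 : p ≠ 2) {x : ℚ} (hx : x ∈ Ip p 2) : Om x - 1 ∈ Ip p 4 := by
  have hx1 := Ip_mono (show 1 ≤ 2 by norm_num) hx
  rw [Om_sub_one x (one_sub_ne_zero hx1)]
  exact Ip_mul_right (Ip_pow hx 2) (W_mem h2 hx1)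

lemma Om_one (h2 : p ≠ 2) {x : ℚ} (hx : x ∈ Ip p 1) : Om x - 1 ∈ Ip p 2 := by
  rw [Om_sub_one x (one_sub_ne_zero hx)]
  exact Ip_mul_right (Ip_pow hx 2) (W_mem h2 hx)

lemma Om_mem (h2 : p ≠ 2) {x : ℚ} (hx : x ∈ Ip p 1) : Om x ∈ ZP p := by
  have := add_mem (Ip_sub_ZP (Om_one h2 hx)) (one_mem (ZP p))
  simpa using this

lemma F2_sub_one (h2 : p ≠ 2) {m : ℕ} {x : ℚ} (hx : x ∈ Ip p m) : F2 x - 1 ∈ Ip p m := by
  have e : F2 x - 1 = x * (1 + 1 / 2 + (1 / 2) * x) := by rw [F2]; ring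
  rw [e]
  have hh := half_mem (p := p) h2
  exact Ip_mul_right hx (add_mem (add_mem (one_mem _) hh) (mul_mem hh (Ip_sub_ZP hx)))

lemma F2_mem (h2 : p ≠ 2) {m : ℕ} {x : ℚ} (hx : x ∈ Ip p m) : F2 x ∈ ZP p := by
  have := add_mem (Ip_sub_ZP (F2_sub_one h2 hx)) (one_mem (ZP p))
  simpa using this

theorem TT_reduce (h2 : p ≠ 2) (b h r : ℕ) (hh : p = 2 * h + 1) (hr : p ^ b = 2 * r + 1) :
    TT ((p ^ (b + 1) : ℕ) : ℚ) (p ^ b * h + r) - TT (p : ℚ) h ∈ Ip p 4 := by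
  have hN : p ^ (b + 1) = 2 * (p ^ b * h + r) + 1 := by
    have e1 : p ^ (b + 1) = 2 * (p ^ b * h) + p ^ b := by
      calc p ^ (b + 1) = p ^ b * p := pow_succ _ _
        _ = p ^ b * (2 * h + 1) := congrArg (p ^ b * ·) hh
        _ = 2 * (p ^ b * h) + p ^ b := by ring
    rw [e1, Nat.mul_add, Nat.add_assoc (2 * (p ^ b * h)), ← hr]
  have hL : p ^ b * h + r < p ^ (b + 1) := by omega
  have hL1 : p ^ b * h ≤ p ^ b * h + r := Nat.le_add_right _ _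
  have hL2 : p ^ b * h + r < p ^ b * (h + 1) := by
    rw [Nat.mul_add, mul_one]
    omega
  have hq : 0 < p ^ b := pow_pos hp.out.pos b
  have hp0 : (p : ℚ) ≠ 0 := by exact_mod_cast hp.out.ne_zero
  have hprod := prod_reduce b (p ^ b * h + r) h 4 hL hL1 hL2 Om (fun x hx => Om_two h2 hx)
    (fun x hx => Om_mem h2 hx)
  -- the terms
  have hx1 : ∀ j ∈ Icc 1 (p ^ b * h + r), ((p ^ (b + 1) : ℕ) : ℚ) / j ∈ Ip p 1 := fun j hj => by
    rw [mem_Icc] at hj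
    exact div_mem_one b j (by omega) (by omega)
  have hsum := sum_reduce b (p ^ b * h + r) h 4 hL1 hL2 (term ((p ^ (b + 1) : ℕ) : ℚ))
    (term (p : ℚ)) (by
      intro l hl hndvd
      have hl' := mem_Icc.1 hl
      rw [term]
      have e1 : ((((p ^ (b + 1) : ℕ) : ℚ) / l) ^ 2 / 2 : ℚ) =
        (1 / 2) * (((p ^ (b + 1) : ℕ) : ℚ) / l) ^ 2 := by ring
      rw [e1]
      refine Ip_mul_right (Ip_mul_left (half_mem h2) (Ip_pow (div_mem_two b l (by omega) hndvd) 2))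
        (prod_mem fun j hj => F2_mem (m := 1) h2 ?_)
      rw [mem_Icc] at hj
      exact hx1 j (mem_Icc.2 ⟨hj.1, by omega⟩)) (by
      intro l hl
      have hl' := mem_Icc.1 hl
      rw [term, term]
      have e1 : ((p ^ (b + 1) : ℕ) : ℚ) / ((p ^ b * l : ℕ) : ℚ) = (p : ℚ) / l := by
        push_cast
        rw [pow_succ]
        have : (l : ℚ) ≠ 0 := by
          have := hl'.1
          positivity
        field_simp
      rw [e1, ← mul_sub]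
      have e2 : ((p : ℚ) / l) ^ 2 / 2 = (1 / 2) * ((p : ℚ) / l) ^ 2 := by ring
      rw [e2]
      have hlp : l < p ^ (0 + 1) := by
        rw [zero_add, pow_one]; omega
      have h3 : (p : ℚ) / l ∈ Ip p 1 := by
        have := div_mem_one (p := p) 0 l (by omega) hlp
        simpa using this
      have hle : p ^ b * l ≤ p ^ b * h := Nat.mul_le_mul_left _ hl'.2
      have hpos : 0 < p ^ b * l := Nat.mul_pos hq hl'.1
      have e3 : l - 1 + 1 = l := by omega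
      have e4 : p ^ b * l = p ^ b * (l - 1) + p ^ b := by
        conv_lhs => rw [← e3]
        rw [Nat.mul_add, mul_one]
      refine Ip_mul (m := 2) (k := 2) (Ip_mul_left (half_mem h2) (Ip_pow h3 2)) ?_
      refine prod_reduce b (p ^ b * l - 1) (l - 1) 2 (by omega) (by omega) (by rw [e3]; omega) F2
        (fun x hx => F2_sub_one h2 hx) (fun x hx => F2_mem h2 hx))
  have hA : ∏ j ∈ Icc 1 (p ^ b * h + r), Om (((p ^ (b + 1) : ℕ) : ℚ) / j) ∈ ZP p :=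
    prod_mem fun j hj => Om_mem h2 (hx1 j hj)
  have hB : (1 : ℚ) + ∑ l ∈ Icc 1 h, term (p : ℚ) l ∈ ZP p := by
    refine add_mem (one_mem _) (sum_mem fun l hl => ?_)
    rw [mem_Icc] at hl
    have hy : ∀ j : ℕ, 1 ≤ j → j ≤ h → (p : ℚ) / j ∈ Ip p 1 := fun j hj1 hj2 => by
      have := div_mem_one (p := p) 0 j (by omega) (by rw [zero_add, pow_one]; omega)
      simpa using this
    rw [term]
    have e2 : ((p : ℚ) / l) ^ 2 / 2 = (1 / 2) * ((p : ℚ) / l) ^ 2 := by ring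
    rw [e2]
    refine mul_mem (mul_mem (half_mem h2) (pow_mem (Ip_sub_ZP (hy l hl.1 hl.2)) 2))
      (prod_mem fun j hj => ?_)
    rw [mem_Icc] at hj
    exact F2_mem h2 (hy j hj.1 (by omega))
  have e : TT ((p ^ (b + 1) : ℕ) : ℚ) (p ^ b * h + r) - TT (p : ℚ) h =
      ((3 : ℕ) : ℚ) * ((∏ j ∈ Icc 1 (p ^ b * h + r), Om (((p ^ (b + 1) : ℕ) : ℚ) / j)) *
        (∑ l ∈ Icc 1 (p ^ b * h + r), term ((p ^ (b + 1) : ℕ) : ℚ) l -
          ∑ l ∈ Icc 1 h, term (p : ℚ) l) +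
      (∏ j ∈ Icc 1 (p ^ b * h + r), Om (((p ^ (b + 1) : ℕ) : ℚ) / j) -
        ∏ j ∈ Icc 1 h, Om ((p : ℚ) / j)) * (1 + ∑ l ∈ Icc 1 h, term (p : ℚ) l)) := by
    rw [TT, TT]
    push_cast
    ring
  rw [e]
  exact Ip_mul_left (natCast_mem_ZP 3) (add_mem (Ip_mul_left hA hsum) (Ip_mul_right hprod hB))

end Pool.Agent.MP5bfa61
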