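import Mathlib
import Pool.Agent.Lib.MP_5bfa61_nt.Half
import Pool.Agent.Lib.MP_5bfa61_nt.Stable

/-!
# The values of the half-range harmonic sums in terms of Bernoulli numbers
-/

set_option autoImplicit false

open Finset

namespace Pool.Agent.MP5bfa61

variable {p : ℕ} [hp : Fact p.Prime]

lemma x_mem {l : ℕ} (h1 : 1 ≤ l) (h2 : l < p) : (p : ℚ) * (l : ℚ)⁻¹ ∈ Ip p 1 := by
  have := p_mul_mem (m := 1) (inv_mem' h1 h2)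
  simpa using this

lemma inv_reflect {l : ℕ} (h1 : 1 ≤ l) (h2 : l < p) :
    (((p - l : ℕ) : ℚ))⁻¹ = -(l : ℚ)⁻¹ * (1 - p * (l : ℚ)⁻¹)⁻¹ := by
  have h3 := one_sub_ne_zero (x_mem h1 h2)
  have h4 : (l : ℚ) ≠ 0 := by positivity
  have h5 : ((p - l : ℕ) : ℚ) = -(l : ℚ) * (1 - p * (l : ℚ)⁻¹) := by
    rw [Nat.cast_sub h2.le]
    field_simp
    ring
  rw [h5, mul_inv, ← neg_inv]

/-- `1/(p-l) ≡ -1/l mod p` -/
lemma inv_reflect1 {l : ℕ} (h1 : 1 ≤ l) (h2 : l < p) :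
    (((p - l : ℕ) : ℚ))⁻¹ + (l : ℚ)⁻¹ ∈ Ip p 1 := by
  have h3 := one_sub_ne_zero (x_mem h1 h2)
  have e : (((p - l : ℕ) : ℚ))⁻¹ + (l : ℚ)⁻¹ =
      p ^ 1 * (-((l : ℚ)⁻¹) ^ 2 * (1 - p * (l : ℚ)⁻¹)⁻¹) := by
    rw [inv_reflect h1 h2]
    have hw := mul_inv_cancel₀ h3
    linear_combination (-(l : ℚ)⁻¹) * hw
  rw [e]
  exact p_mul_mem (mul_mem (neg_mem (pow_mem (inv_mem' h1 h2) 2)) (inv_one_sub_mem (x_mem h1 h2)))

/-- `1/(p-l)^2 ≡ 1/l^2 + 2p/l^3 mod p^2` -/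
lemma inv_reflect2 {l : ℕ} (h1 : 1 ≤ l) (h2 : l < p) :
    ((((p - l : ℕ) : ℚ))⁻¹) ^ 2 - (((l : ℚ)⁻¹) ^ 2 + 2 * p * ((l : ℚ)⁻¹) ^ 3) ∈ Ip p 2 := by
  have h3 := one_sub_ne_zero (x_mem h1 h2)
  have hx := x_mem h1 h2
  have e : ((((p - l : ℕ) : ℚ))⁻¹) ^ 2 - (((l : ℚ)⁻¹) ^ 2 + 2 * p * ((l : ℚ)⁻¹) ^ 3) =
      p ^ 2 * (((l : ℚ)⁻¹) ^ 4 * (3 - 2 * (p * (l : ℚ)⁻¹)) * ((1 - p * (l : ℚ)⁻¹)⁻¹) ^ 2) := by
    rw [inv_reflect h1 h2]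
    have h4 : (l : ℚ) ≠ 0 := by positivity
    have h5 : (l : ℚ) - p ≠ 0 := by
      intro h
      apply h3
      have : (l : ℚ) = p := by linarith
      rw [← this, mul_inv_cancel₀ h4, sub_self]
    field_simp
    ring
  rw [e]
  refine p_mul_mem (mul_mem (mul_mem (pow_mem (inv_mem' h1 h2) 4) ?_)
    (pow_mem (inv_one_sub_mem hx) 2))
  exact sub_mem (natCast_mem_ZP 3) (mul_mem (natCast_mem_ZP 2) (Ip_sub_ZP hx))

lemma Hk_eq_range (k : ℕ) (hk : k ≠ 0) : Hk k (p - 1) = ∑ j ∈ range p, ((j : ℚ)⁻¹) ^ k := by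
  have e : p = p - 1 + 1 := by have := hp.out.pos; omega
  conv_rhs => rw [e]
  rw [sum_range_succ', Hk]
  simp [hk]

/-- R1 -/
lemma H2_full_half (h : ℕ) (hh : p = 2 * h + 1) :
    Hk 2 (p - 1) - (2 * Hk 2 h + 2 * p * Hk 3 h) ∈ Ip p 2 := by
  have e1 : Hk 2 (p - 1) - (2 * Hk 2 h + 2 * p * Hk 3 h) = ∑ l ∈ range h,
      (((((p - (l + 1) : ℕ) : ℚ))⁻¹) ^ 2 -
        ((((l + 1 : ℕ) : ℚ)⁻¹) ^ 2 + 2 * p * (((l + 1 : ℕ) : ℚ)⁻¹) ^ 3)) := by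
    rw [Hk_eq_range 2 (by norm_num)]
    conv_lhs => rw [show range p = range (2 * h + 1) by rw [← hh]]
    rw [fold1, ← hh, Hk, Hk, mul_sum, mul_sum, ← sum_add_distrib]
    have z : (((0 : ℕ) : ℚ)⁻¹) ^ 2 = 0 := by simp
    rw [z, zero_add, ← sum_sub_distrib]
    refine sum_congr rfl fun l _ => ?_
    ring
  rw [e1]
  refine sum_mem fun l hl => ?_
  have := mem_range.1 hl
  exact inv_reflect2 (by omega) (by omega)

/-- `H_{p-1-l} ≡ H_l` -/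
lemma H1_reflect (h5 : 5 ≤ p) (l : ℕ) (hl : l ≤ p - 1) : Hk 1 (p - 1 - l) - Hk 1 l ∈ Ip p 1 := by
  induction l with
  | zero =>
    rw [Nat.sub_zero]
    have e : Hk 1 0 = 0 := by simp [Hk]
    rw [e, sub_zero]
    exact Hk_full 1 (by omega) (by omega)
  | succ l ih =>
    have ih' := ih (by omega)
    have e1 : p - 1 - l = p - 1 - (l + 1) + 1 := by omega
    rw [e1, Hk_succ] at ih'
    rw [Hk_succ]
    have e2 : p - 1 - (l + 1) + 1 = p - (l + 1) := by omega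
    rw [e2] at ih'
    have h1 := inv_reflect1 (p := p) (l := l + 1) (by omega) (by omega)
    have e : Hk 1 (p - 1 - (l + 1)) - (Hk 1 l + (((l + 1 : ℕ) : ℚ)⁻¹) ^ 1) =
      (Hk 1 (p - 1 - (l + 1)) + (((p - (l + 1) : ℕ) : ℚ)⁻¹) ^ 1 - Hk 1 l) -
      ((((p - (l + 1) : ℕ) : ℚ))⁻¹ + ((l + 1 : ℕ) : ℚ)⁻¹) := by ring
    rw [e]
    exact sub_mem ih' h1

/-- R5 -/
lemma Hd_full_half (h5 : 5 ≤ p) (h : ℕ) (hh : p = 2 * h + 1) :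
    Hd (p - 1) - (2 * Hd h + Hk 3 h) ∈ Ip p 1 := by
  let f : ℕ → ℚ := fun j => ((j : ℚ)⁻¹) ^ 2 * Hk 1 (j - 1)
  have e1 : Hd (p - 1) = ∑ j ∈ range p, f j := by
    have e : p = p - 1 + 1 := by omega
    conv_rhs => rw [e]
    rw [sum_range_succ', Hd]
    simp [f]
  have e2 : Hd (p - 1) - (2 * Hd h + Hk 3 h) = ∑ l ∈ range h,
      ((((p - (l + 1) : ℕ) : ℚ)⁻¹) ^ 2 * Hk 1 (p - (l + 1) - 1) -
        (((l + 1 : ℕ) : ℚ)⁻¹) ^ 2 * Hk 1 (l + 1)) := by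
    rw [e1]
    conv_lhs => rw [show range p = range (2 * h + 1) by rw [← hh]]
    rw [fold1, ← hh, Hd, Hk, mul_sum, ← sum_add_distrib]
    have z : f 0 = 0 := by simp [f]
    rw [z, zero_add, ← sum_sub_distrib]
    refine sum_congr rfl fun l _ => ?_
    simp only [f]
    rw [Nat.add_sub_cancel, Hk_succ]
    ring
  rw [e2]
  refine sum_mem fun l hl => ?_
  have hl' := mem_range.1 hl
  have a1 := inv_reflect1 (p := p) (l := l + 1) (by omega) (by omega)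
  have a2 := H1_reflect h5 (l + 1) (by omega)
  have a3 : p - 1 - (l + 1) = p - (l + 1) - 1 := by omega
  rw [a3] at a2
  have m1 : (((p - (l + 1) : ℕ) : ℚ))⁻¹ ∈ ZP p := inv_mem' (by omega) (by omega)
  have m2 : (((l + 1 : ℕ) : ℚ))⁻¹ ∈ ZP p := inv_mem' (by omega) (by omega)
  have m3 : Hk 1 (l + 1) ∈ ZP p := Hk_mem 1 _ (by omega)
  have e : (((p - (l + 1) : ℕ) : ℚ)⁻¹) ^ 2 * Hk 1 (p - (l + 1) - 1) -
        (((l + 1 : ℕ) : ℚ)⁻¹) ^ 2 * Hk 1 (l + 1) =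
      (((p - (l + 1) : ℕ) : ℚ)⁻¹) ^ 2 * (Hk 1 (p - (l + 1) - 1) - Hk 1 (l + 1)) +
      ((((p - (l + 1) : ℕ) : ℚ))⁻¹ + ((l + 1 : ℕ) : ℚ)⁻¹) *
        (((((p - (l + 1) : ℕ) : ℚ))⁻¹ - ((l + 1 : ℕ) : ℚ)⁻¹) * Hk 1 (l + 1)) := by ring
  rw [e]
  exact add_mem (Ip_mul_left (pow_mem m1 2) a2) (Ip_mul_right a1 (mul_mem (sub_mem m1 m2) m3))

/-! ### The binomial identity -/

/-- `C_k = (-1)^k C(p-1,k)` -/
def Ck (p k : ℕ) : ℚ := (-1) ^ k * ((p - 1).choose k : ℚ)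

lemma alt_sum (n : ℕ) :
    ∑ i ∈ range n, (-1 : ℚ) ^ i * (n.choose (i + 1) : ℚ) * ((i + 1 : ℕ) : ℚ)⁻¹ = Hk 1 n := by
  have key : ∀ n, ∑ i ∈ range (n + 1), (-1 : ℚ) ^ i * ((n + 1).choose (i + 1) : ℚ) = 1 := by
    intro n
    have h := Int.alternating_sum_range_choose_of_ne (n := n + 1) (by omega)
    have h' : ∑ i ∈ range (n + 1 + 1), ((-1 : ℚ) ^ i * ((n + 1).choose i : ℚ)) = 0 := by
      exact_mod_cast congrArg (fun z : ℤ => (z : ℚ)) h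
    rw [sum_range_succ'] at h'
    have e : ∑ i ∈ range (n + 1), (-1 : ℚ) ^ (i + 1) * ((n + 1).choose (i + 1) : ℚ) =
        -∑ i ∈ range (n + 1), (-1 : ℚ) ^ i * ((n + 1).choose (i + 1) : ℚ) := by
      rw [← sum_neg_distrib]
      refine sum_congr rfl fun i _ => ?_
      rw [pow_succ]; ring
    rw [e] at h'
    simp only [pow_zero, Nat.choose_zero_right, Nat.cast_one, one_mul] at h'
    linarith
  induction n with
  | zero => simp [Hk]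
  | succ n ih =>
    have e1 : ∀ i, (((n + 1).choose (i + 1) : ℕ) : ℚ) = (n.choose i : ℚ) + (n.choose (i + 1) : ℚ) := by
      intro i
      rw [Nat.choose_succ_succ]; push_cast; ring
    have e2 : ∀ i, (n.choose i : ℚ) * ((i + 1 : ℕ) : ℚ)⁻¹ =
        ((n + 1 : ℕ) : ℚ)⁻¹ * ((n + 1).choose (i + 1) : ℚ) := by
      intro i
      have h := Nat.add_one_mul_choose_eq n i
      have h' : ((n : ℚ) + 1) * (n.choose i : ℚ) = ((n + 1).choose (i + 1) : ℚ) * (i + 1) := by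
        exact_mod_cast h
      have hn : ((n : ℚ) + 1) ≠ 0 := by positivity
      have hi : ((i : ℚ) + 1) ≠ 0 := by positivity
      push_cast
      field_simp
      linear_combination h'
    have e3 : ∑ i ∈ range (n + 1), (-1 : ℚ) ^ i * ((n + 1).choose (i + 1) : ℚ) *
        ((i + 1 : ℕ) : ℚ)⁻¹ =
        ∑ i ∈ range (n + 1), (-1 : ℚ) ^ i * (n.choose (i + 1) : ℚ) * ((i + 1 : ℕ) : ℚ)⁻¹ +
        ((n + 1 : ℕ) : ℚ)⁻¹ * ∑ i ∈ range (n + 1), (-1 : ℚ) ^ i * ((n + 1).choose (i + 1) : ℚ) := by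
      rw [mul_sum, ← sum_add_distrib]
      refine sum_congr rfl fun i _ => ?_
      have e4 : (-1 : ℚ) ^ i * ((n + 1).choose (i + 1) : ℚ) * ((i + 1 : ℕ) : ℚ)⁻¹ =
        (-1 : ℚ) ^ i * ((n.choose i : ℚ) * ((i + 1 : ℕ) : ℚ)⁻¹) +
        (-1 : ℚ) ^ i * (n.choose (i + 1) : ℚ) * ((i + 1 : ℕ) : ℚ)⁻¹ := by
        rw [e1]; ring
      rw [e4, e2]
      ring
    rw [e3, key n, sum_range_succ, ih, Hk_succ, Nat.choose_succ_self]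
    simp

lemma Ck_succ (k : ℕ) : Ck p (k + 1) = Ck p k * (1 - p * ((k + 1 : ℕ) : ℚ)⁻¹) := by
  have h := choose_rel' (p - 1) k
  have hp1 : ((p - 1 : ℕ) : ℚ) = p - 1 := by
    rw [Nat.cast_sub hp.out.one_lt.le]; norm_num
  rw [hp1] at h
  rw [Ck, Ck, pow_succ]
  have hk : ((k : ℚ) + 1) ≠ 0 := by positivity
  push_cast
  field_simp
  linear_combination -h

lemma Ck_expand (k : ℕ) (hk : k < p) (h2 : p ≠ 2) :
    Ck p k - (1 - p * Hk 1 k + p ^ 2 * ((Hk 1 k ^ 2 - Hk 2 k) / 2)) ∈ Ip p 3 := by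
  induction k with
  | zero =>
    have : Ck p 0 - (1 - p * Hk 1 0 + p ^ 2 * ((Hk 1 0 ^ 2 - Hk 2 0) / 2)) = 0 := by
      simp [Ck, Hk]
    rw [this]; exact zero_mem _
  | succ k ih =>
    have ih' := ih (by omega)
    rw [Ck_succ, Hk_succ, Hk_succ]
    set u := ((k + 1 : ℕ) : ℚ)⁻¹ with hu
    have hum : u ∈ ZP p := inv_mem' (by omega) hk
    have e : Ck p k * (1 - p * u) - (1 - p * (Hk 1 k + u ^ 1) +
        p ^ 2 * (((Hk 1 k + u ^ 1) ^ 2 - (Hk 2 k + u ^ 2)) / 2)) =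
        (Ck p k - (1 - p * Hk 1 k + p ^ 2 * ((Hk 1 k ^ 2 - Hk 2 k) / 2))) * (1 - p * u) +
        p ^ 3 * (-((1 / 2) * (Hk 1 k ^ 2 - Hk 2 k) * u)) := by ring
    rw [e]
    have m1 : Hk 1 k ∈ ZP p := Hk_mem 1 k (by omega)
    have m2 : Hk 2 k ∈ ZP p := Hk_mem 2 k (by omega)
    refine add_mem (Ip_mul_right ih' (sub_mem (one_mem _) (mul_mem (natCast_mem_ZP p) hum)))
      (p_mul_mem (neg_mem (mul_mem (mul_mem (half_mem h2) (sub_mem (pow_mem m1 2) m2)) hum)))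

lemma X1_eq (n : ℕ) :
    ∑ i ∈ range n, Hk 1 (i + 1) * ((i + 1 : ℕ) : ℚ)⁻¹ = (Hk 1 n ^ 2 + Hk 2 n) / 2 := by
  induction n with
  | zero => simp [Hk]
  | succ n ih => rw [sum_range_succ, ih, Hk_succ, Hk_succ]; ring

lemma X2_eq (n : ℕ) :
    ∑ i ∈ range n, ((Hk 1 (i + 1) ^ 2 - Hk 2 (i + 1)) / 2) * ((i + 1 : ℕ) : ℚ)⁻¹ =
      Hd n + 1 / 3 * Hk 3 n + 1 / 6 * Hk 1 n ^ 3 - 1 / 2 * (Hk 1 n * Hk 2 n) := by
  induction n with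
  | zero => simp [Hk, Hd]
  | succ n ih => rw [sum_range_succ, ih, Hk_succ, Hk_succ, Hk_succ, Hd_succ]; ring

/-- `2 H_{p-1} + p H^{(2)}_{p-1} ∈ p^3` -/
lemma H1_H2 (h5 : 5 ≤ p) : 2 * Hk 1 (p - 1) + p * Hk 2 (p - 1) ∈ Ip p 3 := by
  have h3 := Hk_full (p := p) 3 (by omega) (by omega)
  have e1 : 2 * Hk 1 (p - 1) = ∑ i ∈ range (p - 1),
      ((((i + 1 : ℕ) : ℚ)⁻¹) + ((p - (i + 1) : ℕ) : ℚ)⁻¹) := by
    rw [sum_add_distrib, two_mul]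
    congr 1
    · simp [Hk]
    · rw [Hk, ← sum_range_reflect]
      refine sum_congr rfl fun i hi => ?_
      have := mem_range.1 hi
      rw [pow_one]
      congr 2
      omega
  have e2 : 2 * Hk 1 (p - 1) + p * Hk 2 (p - 1) + p ^ 2 * Hk 3 (p - 1) = ∑ i ∈ range (p - 1),
      ((((i + 1 : ℕ) : ℚ)⁻¹) + ((p - (i + 1) : ℕ) : ℚ)⁻¹ + p * (((i + 1 : ℕ) : ℚ)⁻¹) ^ 2 +
        p ^ 2 * (((i + 1 : ℕ) : ℚ)⁻¹) ^ 3) := by
    rw [e1, Hk, Hk, mul_sum, mul_sum, ← sum_add_distrib, ← sum_add_distrib]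
  have e3 : 2 * Hk 1 (p - 1) + p * Hk 2 (p - 1) + p ^ 2 * Hk 3 (p - 1) ∈ Ip p 3 := by
    rw [e2]
    refine sum_mem fun i hi => ?_
    have hi' := mem_range.1 hi
    have hx := x_mem (p := p) (l := i + 1) (by omega) (by omega)
    have h3' := one_sub_ne_zero hx
    have hl : ((i + 1 : ℕ) : ℚ) ≠ 0 := by positivity
    rw [inv_reflect (by omega) (by omega)]
    have e : (((i + 1 : ℕ) : ℚ)⁻¹) + -((i + 1 : ℕ) : ℚ)⁻¹ * (1 - p * ((i + 1 : ℕ) : ℚ)⁻¹)⁻¹ +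
        p * (((i + 1 : ℕ) : ℚ)⁻¹) ^ 2 + p ^ 2 * (((i + 1 : ℕ) : ℚ)⁻¹) ^ 3 =
        p ^ 3 * (-(((i + 1 : ℕ) : ℚ)⁻¹) ^ 4 * (1 - p * ((i + 1 : ℕ) : ℚ)⁻¹)⁻¹) := by
      have hw := mul_inv_cancel₀ h3'
      linear_combination (-((i + 1 : ℕ) : ℚ)⁻¹ * (1 + p * ((i + 1 : ℕ) : ℚ)⁻¹ +
        p ^ 2 * (((i + 1 : ℕ) : ℚ)⁻¹) ^ 2)) * hw
    rw [e]
    exact p_mul_mem (mul_mem (neg_mem (pow_mem (inv_mem' (by omega) (by omega)) 4))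
      (inv_one_sub_mem hx))
  have e4 : (p : ℚ) ^ 2 * Hk 3 (p - 1) ∈ Ip p 3 := by
    have := Ip_mul (pow_mem_Ip (p := p) 2) h3
    exact this
  have e : 2 * Hk 1 (p - 1) + p * Hk 2 (p - 1) =
      (2 * Hk 1 (p - 1) + p * Hk 2 (p - 1) + p ^ 2 * Hk 3 (p - 1)) - p ^ 2 * Hk 3 (p - 1) := by ring
  rw [e]
  exact sub_mem e3 e4

/-- R2 -/
lemma H2_Hd (h5 : 5 ≤ p) : 3 / 2 * Hk 2 (p - 1) - p * Hd (p - 1) ∈ Ip p 2 := by
  have h2 : p ≠ 2 := by omega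
  have hh := half_mem5 (p := p) h5
  have ht := third_mem (p := p) h5
  have f1 := Hk_full (p := p) 1 (by omega) (by omega)
  have f2 := Hk_full (p := p) 2 (by omega) (by omega)
  have f3 := Hk_full (p := p) 3 (by omega) (by omega)
  have m1 := Ip_sub_ZP f1
  have m2 := Ip_sub_ZP f2
  have hpp : (p : ℚ) ∈ Ip p 1 := by simpa using pow_mem_Ip (p := p) 1
  -- the identity
  have a1 := alt_sum (p - 1)
  have a2 : Hk 1 (p - 1) + ∑ i ∈ range (p - 1), Ck p (i + 1) * ((i + 1 : ℕ) : ℚ)⁻¹ = 0 := by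
    rw [← a1, ← sum_add_distrib]
    refine sum_eq_zero fun i _ => ?_
    rw [Ck, pow_succ]
    ring
  have a3 : ∑ i ∈ range (p - 1), (Ck p (i + 1) - (1 - p * Hk 1 (i + 1) + p ^ 2 *
      ((Hk 1 (i + 1) ^ 2 - Hk 2 (i + 1)) / 2))) * ((i + 1 : ℕ) : ℚ)⁻¹ ∈ Ip p 3 := by
    refine sum_mem fun i hi => ?_
    have hi' := mem_range.1 hi
    exact Ip_mul_right (Ck_expand _ (by omega) h2) (inv_mem' (by omega) (by omega))
  have a4 : ∑ i ∈ range (p - 1), (Ck p (i + 1) - (1 - p * Hk 1 (i + 1) + p ^ 2 *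
      ((Hk 1 (i + 1) ^ 2 - Hk 2 (i + 1)) / 2))) * ((i + 1 : ℕ) : ℚ)⁻¹ =
      ∑ i ∈ range (p - 1), Ck p (i + 1) * ((i + 1 : ℕ) : ℚ)⁻¹ -
      ∑ i ∈ range (p - 1), (((i + 1 : ℕ) : ℚ)⁻¹) ^ 1 +
      p * ∑ i ∈ range (p - 1), Hk 1 (i + 1) * ((i + 1 : ℕ) : ℚ)⁻¹ -
      p ^ 2 * ∑ i ∈ range (p - 1),
        ((Hk 1 (i + 1) ^ 2 - Hk 2 (i + 1)) / 2) * ((i + 1 : ℕ) : ℚ)⁻¹ := by
    rw [mul_sum, mul_sum, ← sum_sub_distrib, ← sum_add_distrib, ← sum_sub_distrib]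
    refine sum_congr rfl fun i _ => ?_
    ring
  rw [a4, X1_eq, X2_eq, ← Hk] at a3
  have a5 := H1_H2 (p := p) h5
  -- `H1 ∈ p^2`
  have a6 : Hk 1 (p - 1) ∈ Ip p 2 := by
    have e : Hk 1 (p - 1) = (1 / 2) * ((2 * Hk 1 (p - 1) + p * Hk 2 (p - 1)) -
      p * Hk 2 (p - 1)) := by ring
    rw [e]
    exact Ip_mul_left hh (sub_mem (Ip_mono (by norm_num) a5) (Ip_mul (m := 1) (k := 1) hpp f2))
  have a7 : (p : ℚ) * (3 / 2 * Hk 2 (p - 1) - p * Hd (p - 1)) ∈ Ip p (2 + 1) := by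
    have e : (p : ℚ) * (3 / 2 * Hk 2 (p - 1) - p * Hd (p - 1)) =
        (∑ i ∈ range (p - 1), Ck p (i + 1) * ((i + 1 : ℕ) : ℚ)⁻¹ - Hk 1 (p - 1) +
        p * ((Hk 1 (p - 1) ^ 2 + Hk 2 (p - 1)) / 2) -
        p ^ 2 * (Hd (p - 1) + 1 / 3 * Hk 3 (p - 1) + 1 / 6 * Hk 1 (p - 1) ^ 3 -
          1 / 2 * (Hk 1 (p - 1) * Hk 2 (p - 1)))) +
        (2 * Hk 1 (p - 1) + p * Hk 2 (p - 1)) -
        (p * (Hk 1 (p - 1) * ((1 / 2) * Hk 1 (p - 1))) -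
        p ^ 2 * (1 / 3 * Hk 3 (p - 1) + Hk 1 (p - 1) * ((1 / 2) * (1 / 3) * Hk 1 (p - 1) ^ 2 -
          1 / 2 * Hk 2 (p - 1)))) := by
      linear_combination -a2
    rw [e]
    refine sub_mem (add_mem a3 a5) (sub_mem ?_ ?_)
    · exact Ip_mul (m := 1) (k := 2) hpp (Ip_mul_right a6 (mul_mem hh m1))
    · refine Ip_mul (m := 2) (k := 1) (pow_mem_Ip 2) (add_mem (Ip_mul_left ht f3)
        (Ip_mul_right f1 (sub_mem (mul_mem (mul_mem hh ht) (pow_mem m1 2)) (mul_mem hh m2))))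
  exact mul_cancel_mem a7

/-! ### The values -/

theorem values (h5 : 5 ≤ p) (h : ℕ) (hh : p = 2 * h + 1) :
    Hk 2 h - 7 / 3 * p * bernoulli (p - 3) ∈ Ip p 2 ∧
    Hk 3 h + 2 * bernoulli (p - 3) ∈ Ip p 1 ∧
    Hd h - 3 / 2 * bernoulli (p - 3) ∈ Ip p 1 := by
  have hf := half_mem5 (p := p) h5
  have ht := third_mem (p := p) h5
  have r1 := H2_full_half h hh
  have r2 := H2_Hd (p := p) h5
  have r4 := Hd_full (p := p) h5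
  have r5 := Hd_full_half h5 h hh
  have r6 := H3_half h5 h hh
  have hpp : (p : ℚ) ∈ Ip p 1 := by simpa using pow_mem_Ip (p := p) 1
  refine ⟨?_, r6, ?_⟩
  · have e : Hk 2 h - 7 / 3 * p * bernoulli (p - 3) =
        (1 / 2) * ((1 / 3) * (2 * ((3 / 2 * Hk 2 (p - 1) - p * Hd (p - 1)) +
          p * (Hd (p - 1) - bernoulli (p - 3)))) - (Hk 2 (p - 1) - (2 * Hk 2 h + 2 * p * Hk 3 h)) -
          2 * (p * (Hk 3 h + 2 * bernoulli (p - 3)))) := by ring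
    rw [e]
    refine Ip_mul_left hf (sub_mem (sub_mem (Ip_mul_left ht (Ip_mul_left (natCast_mem_ZP 2)
      (add_mem r2 (Ip_mul (m := 1) (k := 1) hpp r4)))) r1)
      (Ip_mul_left (natCast_mem_ZP 2) (Ip_mul (m := 1) (k := 1) hpp r6)))
  · have e : Hd h - 3 / 2 * bernoulli (p - 3) =
        (1 / 2) * ((Hd (p - 1) - bernoulli (p - 3)) - (Hd (p - 1) - (2 * Hd h + Hk 3 h)) -
          (Hk 3 h + 2 * bernoulli (p - 3))) := by ring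
    rw [e]
    exact Ip_mul_left hf (sub_mem (sub_mem r4 r5) r6)

end Pool.Agent.MP5bfa61
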