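import Mathlib
import Pool.Agent.Lib.MP_5bfa61_nt.Values

/-!
# The supercongruence
-/

set_option autoImplicit false

open Finset

namespace Pool.Agent.MP5bfa61

variable {p : ℕ} [hp : Fact p.Prime]

lemma div_mem_one' {l : ℕ} (h1 : 1 ≤ l) (h2 : l < p) : (p : ℚ) / l ∈ Ip p 1 := by
  rw [div_eq_mul_inv]
  exact x_mem h1 h2

lemma Om_expand (h2 : p ≠ 2) {x : ℚ} (hx : x ∈ Ip p 1) :
    Om x - 1 - (-(27 / 4) * x ^ 2 - 31 / 4 * x ^ 3) ∈ Ip p 4 := by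
  have h0 := one_sub_ne_zero hx
  have hx0 := Ip_sub_ZP hx
  have hh := half_mem (p := p) h2
  have e : Om x - 1 - (-(27 / 4) * x ^ 2 - 31 / 4 * x ^ 3) =
      x ^ 4 * ((((90 : ℕ) : ℚ) * x + ((31 : ℕ) : ℚ) * x ^ 3 - ((18 : ℕ) : ℚ) -
        ((97 : ℕ) : ℚ) * x ^ 2) * ((1 / 2) * (1 / 2)) * ((1 - x)⁻¹) ^ 4) := by
    rw [Om_sub_one x h0, W]
    push_cast
    field_simp
    ring
  rw [e]
  refine Ip_mul_right (Ip_pow hx 4) (mul_mem (mul_mem ?_ (mul_mem hh hh))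
    (pow_mem (inv_one_sub_mem hx) 4))
  have i : ∀ n : ℕ, (n : ℚ) ∈ ZP p := fun n => natCast_mem_ZP n
  exact sub_mem (sub_mem (add_mem (mul_mem (i _) hx0) (mul_mem (i _) (pow_mem hx0 3))) (i _))
    (mul_mem (i _) (pow_mem hx0 2))

lemma prod_Om (h2 : p ≠ 2) (h : ℕ) (hh : h < p) :
    ∏ j ∈ Icc 1 h, Om ((p : ℚ) / j) - (1 + (-(27 / 4) * p ^ 2 * Hk 2 h - 31 / 4 * p ^ 3 * Hk 3 h)) ∈
      Ip p 4 := by
  have h1 := prod_first_order (p := p) (Icc 1 h) (fun j => Om ((p : ℚ) / j) - 1) 2 (by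
    intro j hj
    rw [mem_Icc] at hj
    exact Om_one h2 (div_mem_one' (by omega) (by omega)))
  have e0 : ∏ j ∈ Icc 1 h, (1 + (Om ((p : ℚ) / j) - 1)) = ∏ j ∈ Icc 1 h, Om ((p : ℚ) / j) :=
    prod_congr rfl fun j _ => by ring
  rw [e0] at h1
  have e1 : -(27 / 4) * (p : ℚ) ^ 2 * Hk 2 h - 31 / 4 * p ^ 3 * Hk 3 h =
      ∑ j ∈ Icc 1 h, (-(27 / 4) * ((p : ℚ) / j) ^ 2 - 31 / 4 * ((p : ℚ) / j) ^ 3) := by
    rw [sum_Icc_range, Hk, Hk, mul_sum, mul_sum, ← sum_sub_distrib]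
    refine sum_congr rfl fun i _ => ?_
    rw [div_eq_mul_inv]
    ring
  have h3 : ∑ j ∈ Icc 1 h, (Om ((p : ℚ) / j) - 1) -
      (-(27 / 4) * (p : ℚ) ^ 2 * Hk 2 h - 31 / 4 * p ^ 3 * Hk 3 h) ∈ Ip p 4 := by
    rw [e1, ← sum_sub_distrib]
    refine sum_mem fun j hj => ?_
    rw [mem_Icc] at hj
    exact Om_expand h2 (div_mem_one' (by omega) (by omega))
  have e : ∏ j ∈ Icc 1 h, Om ((p : ℚ) / j) -
      (1 + (-(27 / 4) * p ^ 2 * Hk 2 h - 31 / 4 * p ^ 3 * Hk 3 h)) =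
      (∏ j ∈ Icc 1 h, Om ((p : ℚ) / j) - (1 + ∑ j ∈ Icc 1 h, (Om ((p : ℚ) / j) - 1))) +
      (∑ j ∈ Icc 1 h, (Om ((p : ℚ) / j) - 1) -
      (-(27 / 4) * (p : ℚ) ^ 2 * Hk 2 h - 31 / 4 * p ^ 3 * Hk 3 h)) := by ring
  rw [e]
  exact add_mem h1 h3

lemma term_expand (h2 : p ≠ 2) (l : ℕ) (h1 : 1 ≤ l) (hl : l < p) :
    term (p : ℚ) l - (1 / 2 * (p ^ 2 * ((l : ℚ)⁻¹) ^ 2) * (1 + 3 / 2 * p * Hk 1 (l - 1))) ∈
      Ip p 4 := by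
  have hh := half_mem (p := p) h2
  have h3 := prod_first_order (p := p) (Icc 1 (l - 1)) (fun j => F2 ((p : ℚ) / j) - 1) 1 (by
    intro j hj
    rw [mem_Icc] at hj
    exact F2_sub_one h2 (div_mem_one' (by omega) (by omega)))
  have e0 : ∏ j ∈ Icc 1 (l - 1), (1 + (F2 ((p : ℚ) / j) - 1)) =
      ∏ j ∈ Icc 1 (l - 1), F2 ((p : ℚ) / j) :=
    prod_congr rfl fun j _ => by ring
  rw [e0] at h3
  have h4 : ∑ j ∈ Icc 1 (l - 1), (F2 ((p : ℚ) / j) - 1) - 3 / 2 * p * Hk 1 (l - 1) ∈ Ip p 2 := by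
    rw [sum_Icc_range, Hk, mul_sum, ← sum_sub_distrib]
    refine sum_mem fun i hi => ?_
    have hi' := mem_range.1 hi
    have hx := x_mem (p := p) (l := i + 1) (by omega) (by omega)
    have e : F2 ((p : ℚ) / ((i + 1 : ℕ) : ℚ)) - 1 - 3 / 2 * p * (((i + 1 : ℕ) : ℚ)⁻¹) ^ 1 =
        (1 / 2) * ((p : ℚ) * ((i + 1 : ℕ) : ℚ)⁻¹) ^ 2 := by
      rw [F2, div_eq_mul_inv]
      ring
    rw [e]
    exact Ip_mul_left hh (Ip_pow hx 2)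
  have h5 : ∏ j ∈ Icc 1 (l - 1), F2 ((p : ℚ) / j) - (1 + 3 / 2 * p * Hk 1 (l - 1)) ∈ Ip p 2 := by
    have := add_mem h3 h4
    have e : ∏ j ∈ Icc 1 (l - 1), F2 ((p : ℚ) / j) - (1 + 3 / 2 * p * Hk 1 (l - 1)) =
      ∏ j ∈ Icc 1 (l - 1), F2 ((p : ℚ) / j) -
        (1 + ∑ j ∈ Icc 1 (l - 1), (F2 ((p : ℚ) / j) - 1)) +
      (∑ j ∈ Icc 1 (l - 1), (F2 ((p : ℚ) / j) - 1) - 3 / 2 * p * Hk 1 (l - 1)) := by ring
    rw [e]
    exact this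
  have e : term (p : ℚ) l - (1 / 2 * (p ^ 2 * ((l : ℚ)⁻¹) ^ 2) * (1 + 3 / 2 * p * Hk 1 (l - 1))) =
      ((1 / 2) * ((p : ℚ) * (l : ℚ)⁻¹) ^ 2) *
      (∏ j ∈ Icc 1 (l - 1), F2 ((p : ℚ) / j) - (1 + 3 / 2 * p * Hk 1 (l - 1))) := by
    rw [term, div_eq_mul_inv (p : ℚ) (l : ℚ)]
    ring
  rw [e]
  exact Ip_mul (m := 2) (k := 2) (Ip_mul_left hh (Ip_pow (x_mem h1 hl) 2)) h5

lemma sum_term (h2 : p ≠ 2) (h : ℕ) (hh : h < p) :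
    ∑ l ∈ Icc 1 h, term (p : ℚ) l - (1 / 2 * p ^ 2 * Hk 2 h + 3 / 4 * p ^ 3 * Hd h) ∈ Ip p 4 := by
  have e1 : 1 / 2 * (p : ℚ) ^ 2 * Hk 2 h + 3 / 4 * p ^ 3 * Hd h = ∑ l ∈ Icc 1 h,
      (1 / 2 * (p ^ 2 * ((l : ℚ)⁻¹) ^ 2) * (1 + 3 / 2 * p * Hk 1 (l - 1))) := by
    rw [sum_Icc_range, Hk, Hd, mul_sum, mul_sum, ← sum_add_distrib]
    refine sum_congr rfl fun i _ => ?_
    rw [Nat.add_sub_cancel]
    ring
  rw [e1, ← sum_sub_distrib]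
  refine sum_mem fun l hl => ?_
  rw [mem_Icc] at hl
  exact term_expand h2 l hl.1 (by omega)

/-- the case `a = 1` for `p ≥ 5` -/
theorem TT_five (h5 : 5 ≤ p) (h : ℕ) (hh : p = 2 * h + 1) :
    TT (p : ℚ) h - (3 + 49 / 8 * p ^ 3 * bernoulli (p - 3)) ∈ Ip p 4 := by
  have h2 : p ≠ 2 := by omega
  have hhp : h < p := by omega
  obtain ⟨v1, v2, v3⟩ := values h5 h hh
  have a := prod_Om (p := p) h2 h hhp
  have b := sum_term (p := p) h2 h hhp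
  have m2 : Hk 2 h ∈ ZP p := Hk_mem 2 h hhp
  have m3 : Hk 3 h ∈ ZP p := Hk_mem 3 h hhp
  have md : Hd h ∈ ZP p := Hd_mem h hhp
  have hf := half_mem5 (p := p) h5
  have hpp : (p : ℚ) ∈ ZP p := natCast_mem_ZP p
  have i : ∀ n : ℕ, (n : ℚ) ∈ ZP p := fun n => natCast_mem_ZP n
  -- names
  set A := ∏ j ∈ Icc 1 h, Om ((p : ℚ) / j) with hA
  set S := ∑ l ∈ Icc 1 h, term (p : ℚ) l with hS
  have hAm : A ∈ ZP p := by
    rw [hA]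
    refine prod_mem fun j hj => Om_mem h2 (div_mem_one' ?_ ?_)
    · exact (mem_Icc.1 hj).1
    · have := (mem_Icc.1 hj).2; omega
  have e : TT (p : ℚ) h - (3 + 49 / 8 * p ^ 3 * bernoulli (p - 3)) =
      3 * (A * (S - (1 / 2 * p ^ 2 * Hk 2 h + 3 / 4 * p ^ 3 * Hd h))) +
      3 * ((A - (1 + (-(27 / 4) * p ^ 2 * Hk 2 h - 31 / 4 * p ^ 3 * Hk 3 h))) *
        (1 + (1 / 2) * ((p : ℚ) ^ 2 * Hk 2 h) + 3 * ((1 / 2) * (1 / 2)) * ((p : ℚ) ^ 3 * Hd h))) +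
      p ^ 4 * (3 * ((-(27 * ((1 / 2) * (1 / 2))) * Hk 2 h - 31 * ((1 / 2) * (1 / 2)) * p * Hk 3 h) *
        ((1 / 2) * Hk 2 h + 3 * ((1 / 2) * (1 / 2)) * p * Hd h))) +
      (-(75 * ((1 / 2) * (1 / 2)))) * (p ^ 2 * (Hk 2 h - 7 / 3 * p * bernoulli (p - 3))) +
      (-(93 * ((1 / 2) * (1 / 2)))) * (p ^ 3 * (Hk 3 h + 2 * bernoulli (p - 3))) +
      (9 * ((1 / 2) * (1 / 2))) * (p ^ 3 * (Hd h - 3 / 2 * bernoulli (p - 3))) := by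
    rw [TT, ← hA, ← hS]
    ring
  rw [e]
  have q : ((1 : ℚ) / 2) * (1 / 2) ∈ ZP p := mul_mem hf hf
  refine add_mem (add_mem (add_mem (add_mem (add_mem ?_ ?_) ?_) ?_) ?_) ?_
  · exact Ip_mul_left (i 3) (Ip_mul_left hAm b)
  · refine Ip_mul_left (i 3) (Ip_mul_right a (add_mem (add_mem (one_mem _) (mul_mem hf
      (mul_mem (pow_mem hpp 2) m2))) (mul_mem (mul_mem (i 3) q) (mul_mem (pow_mem hpp 3) md))))
  · refine p_mul_mem (mul_mem (i 3) (mul_mem (sub_mem (mul_mem (neg_mem (mul_mem (i 27) q)) m2)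
      (mul_mem (mul_mem (mul_mem (i 31) q) hpp) m3)) (add_mem (mul_mem hf m2)
      (mul_mem (mul_mem (mul_mem (i 3) q) hpp) md))))
  · exact Ip_mul_left (neg_mem (mul_mem (i 75) q)) (Ip_mul (m := 2) (k := 2) (pow_mem_Ip 2) v1)
  · exact Ip_mul_left (neg_mem (mul_mem (i 93) q)) (Ip_mul (m := 3) (k := 1) (pow_mem_Ip 3) v2)
  · exact Ip_mul_left (mul_mem (i 9) q) (Ip_mul (m := 3) (k := 1) (pow_mem_Ip 3) v3)

/-- the case `p = 3`, `a = 1` -/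
theorem TT_three : TT (3 : ℚ) 1 = 1155 / 16 := by
  have h1 := SS_TT 1
  have h2 : SS (2 * 1 + 1) = 3465 / 16 := by
    norm_num [SS, sum_range_succ, Nat.choose]
  rw [h2] at h1
  push_cast at h1
  norm_num at h1
  linarith

theorem main (p : ℕ) (hp : p.Prime) (h2 : p ≠ 2) (a : ℕ) (ha : 0 < a) :
    haveI : Fact p.Prime := ⟨hp⟩
    SS (p ^ a) / (p ^ a : ℕ) - (3 + 49 / 8 * p ^ 3 * bernoulli (p - 3)) ∈ Ip p 4 := by
  have : Fact p.Prime := ⟨hp⟩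
  obtain ⟨b, rfl⟩ : ∃ b, a = b + 1 := ⟨a - 1, by omega⟩
  have hodd : Odd p := hp.odd_of_ne_two h2
  obtain ⟨h, hh⟩ := hodd
  obtain ⟨r, hr⟩ : Odd (p ^ b) := Odd.pow ⟨h, hh⟩
  have hN : p ^ (b + 1) = 2 * (p ^ b * h + r) + 1 := by
    have e1 : p ^ (b + 1) = 2 * (p ^ b * h) + p ^ b := by
      calc p ^ (b + 1) = p ^ b * p := pow_succ _ _
        _ = p ^ b * (2 * h + 1) := congrArg (p ^ b * ·) hh
        _ = 2 * (p ^ b * h) + p ^ b := by ring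
    rw [e1, Nat.mul_add, Nat.add_assoc (2 * (p ^ b * h)), ← hr]
  have h3 := SS_TT (p ^ b * h + r)
  have hNq : ((p ^ (b + 1) : ℕ) : ℚ) = 2 * ((p ^ b * h + r : ℕ) : ℚ) + 1 := by
    rw [hN]; push_cast; ring
  rw [← hN, ← hNq] at h3
  have hne : ((p ^ (b + 1) : ℕ) : ℚ) ≠ 0 := by
    have := hp.pos
    positivity
  have h4 : SS (p ^ (b + 1)) / (p ^ (b + 1) : ℕ) = TT ((p ^ (b + 1) : ℕ) : ℚ) (p ^ b * h + r) := by
    rw [h3]; field_simp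
  rw [h4]
  have h5 := TT_reduce (p := p) h2 b h r hh hr
  have h6 : TT (p : ℚ) h - (3 + 49 / 8 * p ^ 3 * bernoulli (p - 3)) ∈ Ip p 4 := by
    by_cases h7 : 5 ≤ p
    · exact TT_five h7 h hh
    · have h8 : p = 3 := by
        have := hp.two_le
        omega
      subst h8
      have h9 : h = 1 := by omega
      subst h9
      have e : TT ((3 : ℕ) : ℚ) 1 - (3 + 49 / 8 * ((3 : ℕ) : ℚ) ^ 3 * bernoulli (3 - 3)) =
          ((3 : ℕ) : ℚ) ^ 4 * (-((19 : ℕ) : ℚ) * ((16 : ℕ) : ℚ)⁻¹) := by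
        push_cast
        rw [TT_three]
        norm_num
      rw [e]
      exact p_mul_mem (mul_mem (neg_mem (natCast_mem_ZP 19)) (inv_nat_mem (by norm_num)))
  have e : TT ((p ^ (b + 1) : ℕ) : ℚ) (p ^ b * h + r) -
      (3 + 49 / 8 * p ^ 3 * bernoulli (p - 3)) =
      (TT ((p ^ (b + 1) : ℕ) : ℚ) (p ^ b * h + r) - TT (p : ℚ) h) +
      (TT (p : ℚ) h - (3 + 49 / 8 * p ^ 3 * bernoulli (p - 3))) := by ring
  rw [e]
  exact add_mem h5 h6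

end Pool.Agent.MP5bfa61
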